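import Pool.Agent.H34.RQ.Defs
import Pool.Agent.H34.RP.A1
import Pool.Agent.H34.LS.W1

/-!
A: energies. `dd_len`: `|g| = k`, geodesic word `s_1 … s_k` (`wl_exists`; letters in `S` as `S` is symmetric). `rt (s_1 … s_k) ξ - ξ = sum_i rt (s_1 … s_(i-1)) (rt s_i ξ - ξ)`, so by the Cauchy-Schwarz inequality
(`(sum_{i<k} a_i)^2 ≤ k sum a_i^2` pointwise, or induction with `dd (g s) ≤ (1 + k) dd s + (1 + 1/k) dd g`) `dd g ξ ≤ k * sum_i dd s_i ξ ≤ k^2 es S ξ` (`dd s ξ ≤ es S ξ`). Direct pointwise induction: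
`sq (rt (g s) ξ - ξ) = sq (rt g (rt s ξ - ξ) + (rt g ξ - ξ)) ≤ (1 + k) sq (rt s ξ - ξ) + (1 + 1/k) sq (rt g ξ - ξ)` (`sq_rt`), and `(1 + k) + (1 + 1/k) k^2 = (k+1)^2`.
`en_mom2`: sum of `dd_len`. `es_le`: `es S ξ = 2 card S * en (uniform) ξ`; `en_comp` (A1) with `P` the uniform distribution on `S` as a finitely supported function (for instance `∑ s ∈ S, single s 1`, `en_comp` needs only `P ≥ 0`).
`ball_finite`: the map from lists of length `≤ r` over `S` is onto the ball (`wl_exists`), or induction on `r`: the ball of radius `r + 1` is contained in the union of the ball of radius `r` and its translates by `S`.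
-/

namespace Pool.Agent.H34.RQ

open Pool.Agent.H34.LS Pool.Agent.H34.RP Pool.Agent.H34.SM

universe u v

variable {G : Type u} [Group G]

private theorem a_sq_add (k : ℝ) (a b : G →₀ ℝ) :
    k * sq (a + b) ≤ (k + 1) * sq a + k * (k + 1) * sq b := by
  classical
  have ha : a.support ⊆ a.support ∪ b.support := Finset.subset_union_left
  have hb : b.support ⊆ a.support ∪ b.support := Finset.subset_union_right
  have hab : (a + b).support ⊆ a.support ∪ b.support := Finsupp.support_add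
  rw [sq_sum _ hab, sq_sum _ ha, sq_sum _ hb, Finset.mul_sum, Finset.mul_sum, Finset.mul_sum,
    ← Finset.sum_add_distrib]
  refine Finset.sum_le_sum fun x _ => ?_
  rw [Finsupp.add_apply]
  nlinarith [sq_nonneg (a x - k * b x)]

private theorem a_dd_mul (k : ℝ) (g s : G) (ξ : G →₀ ℝ) :
    k * dd (s * g) ξ ≤ (k + 1) * dd g ξ + k * (k + 1) * dd s ξ := by
  have e1 : rt (s * g) ξ - ξ = rt s (rt g ξ - ξ) + (rt s ξ - ξ) := by
    ext x
    simp only [Finsupp.sub_apply, Finsupp.add_apply, rt_apply]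
    rw [mul_assoc]
    ring
  have h1 := a_sq_add k (rt s (rt g ξ - ξ)) (rt s ξ - ξ)
  rw [← e1, sq_rt] at h1
  exact h1

private theorem a_dd_one (ξ : G →₀ ℝ) : dd 1 ξ = 0 := by
  unfold dd
  rw [rt_one, sub_self]
  unfold RP.sq
  simp

private theorem a_dd_le (S : Finset G) {s : G} (hs : s ∈ S) (ξ : G →₀ ℝ) : dd s ξ ≤ es S ξ :=
  Finset.single_le_sum (f := fun s => dd s ξ) (fun _ _ => dd_nonneg' _ ξ) hs

private theorem a_es_nonneg (S : Finset G) (ξ : G →₀ ℝ) : 0 ≤ es S ξ :=
  Finset.sum_nonneg fun _ _ => dd_nonneg' _ ξ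

private theorem a_list (S : Finset G) (ξ : G →₀ ℝ) (l : List G) (hl : ∀ x ∈ l, x ∈ S) :
    dd l.prod ξ ≤ (l.length : ℝ) ^ 2 * es S ξ := by
  induction l with
  | nil =>
    rw [List.prod_nil, a_dd_one]
    simp
  | cons s l ih =>
    have h1 := ih fun x hx => hl x (List.mem_cons_of_mem _ hx)
    have h2 := a_dd_le S (hl s List.mem_cons_self) ξ
    rw [List.prod_cons, List.length_cons]
    rcases Nat.eq_zero_or_pos l.length with h0 | h0
    · have h3 : l = [] := List.length_eq_zero_iff.1 h0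
      subst h3
      rw [List.prod_nil, mul_one]
      simpa using h2
    · have hk : (0 : ℝ) < l.length := by exact_mod_cast h0
      have h3 := a_dd_mul (l.length : ℝ) l.prod s ξ
      have h4 : (l.length : ℝ) * dd (s * l.prod) ξ ≤
          (l.length : ℝ) * (((l.length : ℝ) + 1) ^ 2 * es S ξ) := by
        refine h3.trans ?_
        have h5 := mul_le_mul_of_nonneg_left h1 (by positivity : (0 : ℝ) ≤ (l.length : ℝ) + 1)
        have h6 := mul_le_mul_of_nonneg_left h2
          (by positivity : (0 : ℝ) ≤ (l.length : ℝ) * ((l.length : ℝ) + 1))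
        calc ((l.length : ℝ) + 1) * dd l.prod ξ + (l.length : ℝ) * ((l.length : ℝ) + 1) * dd s ξ
            ≤ ((l.length : ℝ) + 1) * ((l.length : ℝ) ^ 2 * es S ξ) +
              (l.length : ℝ) * ((l.length : ℝ) + 1) * es S ξ := add_le_add h5 h6
          _ = (l.length : ℝ) * (((l.length : ℝ) + 1) ^ 2 * es S ξ) := by ring
      have h7 := le_of_mul_le_mul_left h4 hk
      push_cast
      exact h7

private theorem a_word {S : Finset G} (h : GenSet S) (g : G) :
    ∃ l : List G, l.length = wordLength (S : Set G) g ∧ (∀ x ∈ l, x ∈ S) ∧ l.prod = g := by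
  obtain ⟨l, h1, h2, h3⟩ := wl_exists h.gen g
  refine ⟨l, h1, fun x hx => ?_, h3⟩
  rcases h2 x hx with h4 | h4
  · exact h4
  · have h5 := h.inv _ h4
    rwa [inv_inv] at h5

theorem dd_len {S : Finset G} (h : GenSet S) (g : G) (ξ : G →₀ ℝ) :
    dd g ξ ≤ (wordLength (S : Set G) g : ℝ) ^ 2 * es S ξ := by
  obtain ⟨l, h1, h2, h3⟩ := a_word h g
  have h4 := a_list S ξ l h2
  rwa [h1, h3] at h4

theorem en_mom2 {S : Finset G} (h : GenSet S) {P : G →₀ ℝ} (hP : ∀ g, 0 ≤ P g) (ξ : G →₀ ℝ) :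
    en P ξ ≤ 1 / 2 * mom2 (S : Set G) P * es S ξ := by
  unfold en mom2
  rw [mul_assoc]
  refine mul_le_mul_of_nonneg_left ?_ (by norm_num)
  change ∑ g ∈ P.support, P g * dd g ξ ≤
    (∑ g ∈ P.support, P g * (wordLength (S : Set G) g : ℝ) ^ 2) * es S ξ
  rw [Finset.sum_mul]
  refine Finset.sum_le_sum fun g _ => ?_
  rw [mul_assoc]
  exact mul_le_mul_of_nonneg_left (dd_len h g ξ) (hP g)

theorem es_le (S : Finset G) {P0 : G →₀ ℝ} (hP0 : ∀ g, 0 ≤ P0 g)
    (hg0 : Submonoid.closure (Function.support P0) = ⊤) :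
    ∃ C : ℝ, 0 < C ∧ ∀ ξ : G →₀ ℝ, es S ξ ≤ C * en P0 ξ := by
  classical
  set P : G →₀ ℝ := Finsupp.indicator S fun _ _ => (1 : ℝ) with hPdef
  have hPa : ∀ g, P g = if g ∈ S then 1 else 0 := by
    intro g
    rw [hPdef, Finsupp.indicator_apply]
    by_cases hgS : g ∈ S
    · rw [dif_pos hgS, if_pos hgS]
    · rw [dif_neg hgS, if_neg hgS]
  have hPn : ∀ g, 0 ≤ P g := by
    intro g
    rw [hPa]
    split_ifs <;> norm_num
  obtain ⟨C, hC, h⟩ := en_comp (P := P) hPn hP0 hg0
  refine ⟨2 * C, by positivity, fun ξ => ?_⟩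
  have h1 : en P ξ = 1 / 2 * es S ξ := by
    unfold en es
    congr 1
    have h3 : (P.sum fun g a => a * dd g ξ) = ∑ g ∈ S, P g * dd g ξ :=
      Finsupp.sum_of_support_subset P (Finsupp.support_indicator_subset _ _) _
        (fun _ _ => zero_mul _)
    rw [h3]
    refine Finset.sum_congr rfl fun g hg => ?_
    rw [hPa, if_pos hg, one_mul]
  have h2 := h ξ
  rw [h1] at h2
  linarith

theorem ball_finite {S : Finset G} (h : GenSet S) (r : ℕ) :
    {g : G | wordLength (S : Set G) g ≤ r}.Finite := by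
  have h1 : {l : List S | l.length ≤ r}.Finite := List.finite_length_le S r
  refine (h1.image fun l : List S => (l.map Subtype.val).prod).subset ?_
  intro g hg
  obtain ⟨l, h2, h3, h4⟩ := a_word h g
  lift l to List S using h3
  refine ⟨l, ?_, h4⟩
  rw [List.length_map] at h2
  exact h2.trans_le hg

end Pool.Agent.H34.RQ
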