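import Pool.Agent.H34.SM.F
import Pool.Agent.H34.SM.G
import Pool.Agent.H34.RP.E4
import Pool.Agent.H34.RP.F0

/-!
B: the drop at one scale, general test functions, second moment of the information. Copy of RP/F2 (`drop_scale`) with `drop4b` (SM/F) in place of `drop4`; compare SM/G (`drop_scale3`): `hLt` replaces the
pointwise bound of the information, `hE` replaces `ent_ge`.
-/

namespace Pool.Agent.H34.RQ

open Pool.Agent.H34.LS Pool.Agent.H34.RP Pool.Agent.H34.SM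

universe u

variable {G : Type u} [Group G] {P : G →₀ ℝ}

theorem drop_scale5 (hP : Prb P) (hs : ∀ g, P g⁻¹ = P g) {L : ℝ} (hL0 : 0 ≤ L) {e : ℝ}
    (he : 0 < e) {S : Finset G} {ξ : G → ℝ} (hξ : ∀ x, 0 ≤ ξ x) (h1 : ∑ x ∈ S, ξ x ^ 2 = 1)
    {l : ℝ} (hl0 : 0 ≤ l) (hl : l ≤ 1 / 2) (hρ : 1 - l ≤ ∑ x ∈ S, ξ x * op S (ker P) ξ x)
    {i j : ℕ} (hi : 1 ≤ i) (hj : 1 ≤ j)
    (hLt : (pw P (2 * i)).sum (fun _ a => a * Real.log a ^ 2) ≤
      (L * ((2 * i : ℕ) : ℝ) + 1) * fent (pw P (2 * i)))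
    (hE : e * ((2 * i : ℕ) : ℝ) ≤ fent (pw P (2 * i)))
    (ht : l * ((2 * i : ℕ) : ℝ) ≤ e / (32 * (L + 1)))
    (hT : 32 * Real.log S.card ≤ e * ((2 * i * (2 * j) : ℕ) : ℝ)) :
    fent (pw P (2 * i * (2 * j))) / ((2 * i * (2 * j) : ℕ) : ℝ) ≤
      fent (pw P (2 * i)) / ((2 * i : ℕ) : ℝ) -
        e / 4 * Real.exp (-(2 * l * ((2 * i * (2 * j) : ℕ) : ℝ))) := by
  have hq : Prb (pw P (2 * i)) := ⟨fun g => pw_nonneg hP.nonneg (2 * i) g, tot_pw hP.total _⟩
  have ht2 : (2 : ℝ) ≤ ((2 * i : ℕ) : ℝ) := by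
    have h0 : 2 ≤ 2 * i := by omega
    exact_mod_cast h0
  have hm2 : (2 : ℝ) ≤ ((2 * j : ℕ) : ℝ) := by
    have h0 : 2 ≤ 2 * j := by omega
    exact_mod_cast h0
  have hTe : ((2 * i * (2 * j) : ℕ) : ℝ) = ((2 * i : ℕ) : ℝ) * ((2 * j : ℕ) : ℝ) := by
    push_cast
    ring
  have hl1 : 0 < 1 - l := by linarith
  -- the survival probability
  have hs1 := surv_ge hP.nonneg hs hξ h1 i j
  have hs2 : (1 - l) ^ (2 * i * (2 * j)) ≤
      (∑ x ∈ S, ξ x * op S (ker P) ξ x) ^ (2 * i * (2 * j)) :=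
    pow_le_pow_left₀ hl1.le hρ _
  have hs3 : (1 - l) ^ (2 * i * (2 * j)) ≤
      ∑ y ∈ S, ξ y ^ 2 * su (pw P (2 * i)) S (2 * j) y := hs2.trans hs1
  have hent := hE
  have hL'0 : 0 < L * ((2 * i : ℕ) : ℝ) + 1 := by
    have h0 : 0 ≤ L * ((2 * i : ℕ) : ℝ) := mul_nonneg hL0 (by linarith)
    linarith
  have hεpos : 0 < ∑ y ∈ S, ξ y ^ 2 * su (pw P (2 * i)) S (2 * j) y :=
    (pow_pos hl1 _).trans_le hs3
  have hd := drop4b hq hL'0 hLt S (a := fun y => ξ y ^ 2) (fun y _ => sq_nonneg (ξ y)) h1 (2 * j)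
    hεpos
  rw [pw_pw] at hd
  have hlog1 : -(2 * l) ≤ Real.log (1 - l) := by
    have h0 := Real.one_sub_inv_le_log_of_pos hl1
    have h2 : (1 - l)⁻¹ ≤ 1 + 2 * l := by
      rw [inv_le_iff_one_le_mul₀ hl1]
      nlinarith
    linarith
  have hlogp : Real.log ((1 - l) ^ (2 * i * (2 * j))) =
      ((2 * i * (2 * j) : ℕ) : ℝ) * Real.log (1 - l) := Real.log_pow _ _
  generalize hTdef : 2 * i * (2 * j) = T at *
  generalize htdef : ((2 * i : ℕ) : ℝ) = t at *
  generalize hmdef : ((2 * j : ℕ) : ℝ) = m at *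
  generalize hεdef : ∑ y ∈ S, ξ y ^ 2 * su (pw P (2 * i)) S (2 * j) y = ε at *
  generalize hFt : fent (pw P (2 * i)) = Ft at *
  generalize hFT : fent (pw P T) = FT at *
  have hT0 : 0 < (T : ℝ) := by
    rw [hTe]
    have h0 : 0 < t := by linarith
    have h2 : 0 < m := by linarith
    exact mul_pos h0 h2
  have hlogε : -Real.log ε ≤ 2 * l * T := by
    have h0 := Real.log_le_log (pow_pos hl1 _) hs3
    rw [hlogp] at h0
    have h2 := mul_le_mul_of_nonneg_left hlog1 hT0.le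
    linarith
  have hεexp : Real.exp (-(2 * l * T)) ≤ ε := by
    rw [← Real.le_log_iff_exp_le hεpos]
    linarith
  have hL1 : 0 < L + 1 := by linarith
  have hlT : l * t * (L + 1) ≤ e / 32 := by
    have h0 := mul_le_mul_of_nonneg_right ht hL1.le
    have h2 : e / (32 * (L + 1)) * (L + 1) = e / 32 := by field_simp
    linarith
  have hb1 : (L * t + 1 + 1) * (-Real.log ε) ≤ e * T / 16 := by
    have h0 : 0 ≤ 2 * l * T := by positivity
    have h2 : L * t + 1 + 1 ≤ (L + 1) * t := by nlinarith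
    have h3 : 0 ≤ L * t + 1 + 1 := by linarith
    calc (L * t + 1 + 1) * (-Real.log ε) ≤ (L * t + 1 + 1) * (2 * l * T) :=
          mul_le_mul_of_nonneg_left hlogε h3
      _ ≤ (L + 1) * t * (2 * l * T) := mul_le_mul_of_nonneg_right h2 h0
      _ = 2 * T * (l * t * (L + 1)) := by ring
      _ ≤ 2 * T * (e / 32) := mul_le_mul_of_nonneg_left hlT (by positivity)
      _ = e * T / 16 := by ring
  have hb2 : e * T / 2 ≤ m * Ft / 2 := by
    have h0 : e * t * m ≤ Ft * m := mul_le_mul_of_nonneg_right hent (by linarith)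
    rw [hTe]
    linarith
  have hb3 : e * T / 4 ≤ m * Ft / 2 - Real.log S.card - (L * t + 1 + 1) * (-Real.log ε) := by
    have h0 : 0 < e * T := mul_pos he hT0
    linarith
  have hb4 : e * T / 4 * Real.exp (-(2 * l * T)) ≤
      ε * (m * Ft / 2 - Real.log S.card - (L * t + 1 + 1) * (-Real.log ε)) := by
    have h0 : 0 ≤ e * T / 4 := by positivity
    calc e * T / 4 * Real.exp (-(2 * l * T)) ≤ e * T / 4 * ε :=
          mul_le_mul_of_nonneg_left hεexp h0
      _ = ε * (e * T / 4) := by ring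
      _ ≤ _ := mul_le_mul_of_nonneg_left hb3 hεpos.le
  have hfin : FT ≤ m * Ft - e * T / 4 * Real.exp (-(2 * l * T)) := by linarith
  have ht0 : 0 < t := by linarith
  have hm0 : 0 < m := by linarith
  rw [div_le_iff₀ hT0]
  have h5 : (Ft / t - e / 4 * Real.exp (-(2 * l * T))) * T =
      m * Ft - e * T / 4 * Real.exp (-(2 * l * T)) := by
    have h6 : Ft / t * T = m * Ft := by
      rw [hTe]
      field_simp
    linear_combination h6
  rw [h5]
  exact hfin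

end Pool.Agent.H34.RQ
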