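import Pool.Agent.H34.RQ.A
import Pool.Agent.H34.RQ.C
import Pool.Agent.H34.SM.D
import Pool.Agent.H34.SM.E
import Pool.Agent.H34.SM.W
import Pool.Agent.H34.SM.R3
import Pool.Agent.H34.SM.S1
import Pool.Agent.H34.RP.T1
import Pool.Agent.H34.SM.N

/-!
D: the criterion for measures with finite second moment. `crit5`: as `crit_fin`, `crit` (SM/Q): `b` from `rwt_sum`, `M0 = M + 1`, `L = (8 (log b)^2 M0 + 16) / e` (bound of the second moment of the information as in SM/Q),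
`C1 = (1/2) M0 * max c0 1` (or `M0 * (|c0| + 1)`): for `j ≥ j0` take `ξ` from `Tests`, `en P ξ ≤ (1/2) M es S ξ ≤ C1 / 4^j * sq ξ` (`en_mom2`), normalise as in RP/T1 (`t1_norm` is private there: copy it; its hypothesis `hcomp` is
not needed, only the bound of `en P ξ`), `series_fin5` with `j2 = max j1 j0`; the partial sums are bounded by `D * (log b * M + 2)` (`fent_le`); so the series is summable, against `hdiv`.
`criterion2`: as `liouville2` (SM/Z) with `F = G = G'`: suppose `u` bounded harmonic, nonconstant; the second moment for `S` is finite (`wl_map` with the identity), `incr_family` gives `e`, `M = 2 * tsum`; `crit5` with `e, M` gives `N`;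
`incr_family` at `N`: `p` with increments `≥ e` up to time `N`, so `e t ≤ fent (pw p.coeff t)` for `t ≤ N` (sum of increments, `pw_coeff`): contradiction.
-/

namespace Pool.Agent.H34.RQ

open Pool.Agent.H34.LS Pool.Agent.H34.RP Pool.Agent.H34.SM

universe u

variable {G : Type u} [Group G]

omit [Group G] in
private theorem d_sq_smul (c : ℝ) (ξ : G →₀ ℝ) : sq (c • ξ) = c ^ 2 * sq ξ := by
  unfold RP.sq
  rw [Finsupp.sum_smul_index' (fun _ => by norm_num), Finsupp.sum, Finsupp.sum, Finset.mul_sum]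
  refine Finset.sum_congr rfl fun x _ => ?_
  rw [smul_eq_mul, mul_pow]

omit [Group G] in
private theorem d_sq_pos {ξ : G →₀ ℝ} (h : ξ ≠ 0) : 0 < sq ξ := by
  unfold RP.sq
  obtain ⟨x, hx⟩ := Finsupp.support_nonempty_iff.mpr h
  refine Finset.sum_pos (fun y hy => ?_) ⟨x, hx⟩
  have := Finsupp.mem_support_iff.mp hy
  positivity

/-- the normalised test function -/
private theorem d_norm {P : G →₀ ℝ} (hP : Prb P) {d : ℝ} {ξ : G →₀ ℝ} (hξ : ξ ≠ 0)
    (hen : en P ξ ≤ d * sq ξ) :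
    ∃ (S : Finset G) (ζ : G → ℝ), (∀ x, 0 ≤ ζ x) ∧ ∑ x ∈ S, ζ x ^ 2 = 1 ∧
      1 - d ≤ ∑ x ∈ S, ζ x * op S (ker P) ζ x ∧ S.card = ξ.support.card := by
  obtain ⟨η, hη0, hηs, hηq, hηe⟩ := en_abs hP.nonneg ξ
  have hs : 0 < sq η := by
    rw [hηq]
    exact d_sq_pos hξ
  set c : ℝ := (Real.sqrt (sq η))⁻¹ with hc
  have hc0 : 0 < c := by positivity
  have hc2 : c ^ 2 * sq η = 1 := by
    rw [hc, inv_pow, Real.sq_sqrt hs.le, inv_mul_cancel₀ hs.ne']
  have hsupp : (c • η).support = η.support := by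
    ext x
    rw [Finsupp.mem_support_iff, Finsupp.mem_support_iff, Finsupp.smul_apply, smul_eq_mul]
    constructor
    · intro h h'
      exact h (by rw [h', mul_zero])
    · intro h
      exact mul_ne_zero hc0.ne' h
  refine ⟨(c • η).support, fun x => (c • η) x, fun x => ?_, ?_, ?_, ?_⟩
  · show 0 ≤ (c • η) x
    rw [Finsupp.smul_apply, smul_eq_mul]
    exact mul_nonneg hc0.le (hη0 x)
  · have h1 : ∑ x ∈ (c • η).support, (c • η) x ^ 2 = sq (c • η) := rfl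
    rw [h1, d_sq_smul, hc2]
  · have h1 := op_en hP (c • η)
    rw [h1, d_sq_smul, hc2, en_smul]
    have h2 : en P η ≤ d * sq η := by
      rw [hηq]
      exact hηe.trans hen
    have h3 : c ^ 2 * en P η ≤ c ^ 2 * (d * sq η) := mul_le_mul_of_nonneg_left h2 (by positivity)
    have h4 : c ^ 2 * (d * sq η) = d * (c ^ 2 * sq η) := by ring
    rw [h4, hc2, mul_one] at h3
    linarith
  · rw [hsupp, hηs]

/-- the partial sums are bounded -/
private theorem d_fin {S : Finset G} (h : GenSet S) {c0 : ℝ} {K : ℕ → ℝ} (hK : ∀ j, 0 ≤ K j)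
    {j0 : ℕ} (hT : Tests S c0 K j0) {e M : ℝ} (he : 0 < e) (hM : 0 ≤ M) :
    ∃ c D : ℝ, 0 < c ∧ ∃ j1 : ℕ, ∀ J : ℕ, ∃ N : ℕ, ∀ P : G →₀ ℝ, Prb P → (∀ g, P g⁻¹ = P g) →
      mom2 (S : Set G) P ≤ M → (∀ t, t ≤ N → e * t ≤ fent (pw P t)) →
      ∑ j ∈ Finset.Icc j1 J, Real.exp (-(c * K j)) ≤ D := by
  obtain ⟨b, hb, hr⟩ := rwt_sum S.finite_toSet h.gen
  obtain ⟨M0, hM0, hM1⟩ : ∃ M0 : ℝ, 0 < M0 ∧ M ≤ M0 := ⟨M + 1, by linarith, by linarith⟩
  obtain ⟨c1, hc10, hc1⟩ : ∃ c1 : ℝ, 0 < c1 ∧ c0 ≤ c1 :=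
    ⟨max c0 1, lt_of_lt_of_le one_pos (le_max_right _ _), le_max_left _ _⟩
  have hC1 : 0 < 1 / 2 * M0 * c1 := by positivity
  have hL0 : 0 ≤ (8 * Real.log b ^ 2 * M0 + 16) / e := by positivity
  obtain ⟨c, D, hc, hD, j1, hser⟩ := series_fin5.{u} he hL0 hC1
  refine ⟨c, D * (Real.log b * M + 2), hc, max j1 j0, fun J => ?_⟩
  obtain ⟨N, hN⟩ := hser J
  refine ⟨N, fun P hP hsym hmom hent => ?_⟩
  have hmom0 : mom2 (S : Set G) P ≤ M0 := hmom.trans hM1
  refine (hN G P K (max j1 j0) (le_max_left _ _) hP hsym hK ?_ ?_).trans ?_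
  · intro t ht htN
    have h1 := hent t htN
    refine ⟨h1, ?_⟩
    have hq : Prb (pw P t) := ⟨fun g => pw_nonneg hP.nonneg t g, tot_pw hP.total _⟩
    have h2 := logsq_le hb hr hq
    have h3 := mom2_pw h.gen hP t
    have ht1 : (1 : ℝ) ≤ t := by exact_mod_cast ht
    have ht2 : (1 : ℝ) ≤ (t : ℝ) ^ 2 := one_le_pow₀ ht1
    have h4 : mom2 (S : Set G) (pw P t) ≤ (t : ℝ) ^ 2 * M0 :=
      h3.trans (mul_le_mul_of_nonneg_left hmom0 (by positivity))
    have h5 : 8 * Real.log b ^ 2 * mom2 (S : Set G) (pw P t) + 16 ≤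
        (8 * Real.log b ^ 2 * M0 + 16) * (t : ℝ) ^ 2 := by
      have h51 : 8 * Real.log b ^ 2 * mom2 (S : Set G) (pw P t) ≤
          8 * Real.log b ^ 2 * ((t : ℝ) ^ 2 * M0) :=
        mul_le_mul_of_nonneg_left h4 (by positivity)
      nlinarith
    have h6 : (8 * Real.log b ^ 2 * M0 + 16) * (t : ℝ) ^ 2 =
        ((8 * Real.log b ^ 2 * M0 + 16) / e * t) * (e * t) := by
      field_simp
    have h7 : ((8 * Real.log b ^ 2 * M0 + 16) / e * t) * (e * t) ≤
        ((8 * Real.log b ^ 2 * M0 + 16) / e * t) * fent (pw P t) :=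
      mul_le_mul_of_nonneg_left h1 (by positivity)
    have h8 := fent_pw_nonneg hP t
    have h9 : ((8 * Real.log b ^ 2 * M0 + 16) / e * t + 1) * fent (pw P t) =
        ((8 * Real.log b ^ 2 * M0 + 16) / e * t) * fent (pw P t) + fent (pw P t) := by ring
    rw [h9]
    linarith
  · intro j hj _
    obtain ⟨ξ, hξ0, hξe, hξc⟩ := hT j ((le_max_right j1 j0).trans hj)
    have hsq : 0 < sq ξ := d_sq_pos hξ0
    have h4j : (0 : ℝ) < 4 ^ j := by positivity
    have h1 : es S ξ ≤ c1 / 4 ^ j * sq ξ :=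
      hξe.trans (mul_le_mul_of_nonneg_right (div_le_div_of_nonneg_right hc1 h4j.le) hsq.le)
    have h2 : en P ξ ≤ (1 / 2 * M0 * c1) / 4 ^ j * sq ξ := by
      have h3 := en_mom2 h hP.nonneg ξ
      have h5 : 0 ≤ c1 / 4 ^ j * sq ξ := by positivity
      have h6 : 0 ≤ mom2 (S : Set G) P := by
        unfold mom2
        exact Finset.sum_nonneg fun g _ => mul_nonneg (hP.nonneg g) (by positivity)
      calc en P ξ ≤ 1 / 2 * mom2 (S : Set G) P * es S ξ := h3
        _ ≤ 1 / 2 * mom2 (S : Set G) P * (c1 / 4 ^ j * sq ξ) :=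
            mul_le_mul_of_nonneg_left h1 (by positivity)
        _ ≤ 1 / 2 * M0 * (c1 / 4 ^ j * sq ξ) :=
            mul_le_mul_of_nonneg_right (by linarith) h5
        _ = (1 / 2 * M0 * c1) / 4 ^ j * sq ξ := by ring
    obtain ⟨A, ζ, a1, a2, a3, a4⟩ := d_norm hP hξ0 h2
    refine ⟨A, ζ, a1, a2, a3, ?_⟩
    rw [a4]
    exact hξc
  · refine mul_le_mul_of_nonneg_left ?_ hD.le
    refine (fent_le hb hr hP).trans ?_
    have h1 := mul_le_mul_of_nonneg_left hmom (Real.log_nonneg hb)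
    linarith

theorem crit5 {S : Finset G} (h : GenSet S) {c0 : ℝ} {K : ℕ → ℝ} (hK : ∀ j, 0 ≤ K j) {j0 : ℕ}
    (hT : Tests S c0 K j0) (hdiv : Diverges K) {e M : ℝ} (he : 0 < e) (hM : 0 ≤ M) :
    ∃ N : ℕ, ∀ P : G →₀ ℝ, Prb P → (∀ g, P g⁻¹ = P g) → mom2 (S : Set G) P ≤ M →
      ¬ ∀ t, t ≤ N → e * t ≤ fent (pw P t) := by
  obtain ⟨c, D, hc, j1, hJ⟩ := d_fin h hK hT he hM
  by_contra hcon
  have hbound : ∀ J : ℕ, ∑ j ∈ Finset.Icc j1 J, Real.exp (-(c * K j)) ≤ D := by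
    intro J
    obtain ⟨N, hN⟩ := hJ J
    by_contra hb
    refine hcon ⟨N, fun P h1 h2 h3 h4 => hb (hN P h1 h2 h3 h4)⟩
  refine hdiv c hc ?_
  rw [← summable_nat_add_iff j1]
  refine summable_of_sum_range_le (c := D) (fun n => (Real.exp_pos _).le) fun n => ?_
  refine le_trans ?_ (hbound (j1 + n))
  have h1 : ∑ i ∈ Finset.range n, Real.exp (-(c * K (i + j1))) =
      ∑ j ∈ Finset.Ico j1 (j1 + n), Real.exp (-(c * K j)) := by
    rw [Finset.sum_Ico_eq_sum_range, Nat.add_sub_cancel_left]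
    refine Finset.sum_congr rfl fun i _ => ?_
    rw [add_comm i j1]
  rw [h1]
  refine Finset.sum_le_sum_of_subset_of_nonneg ?_ fun j _ _ => (Real.exp_pos _).le
  intro j hj
  rw [Finset.mem_Ico] at hj
  rw [Finset.mem_Icc]
  exact ⟨hj.1, hj.2.le⟩

private theorem d_tel {p : MonoidAlgebra ℝ G} {e : ℝ} :
    ∀ n : ℕ, (∀ m < n, e ≤ ent (p ^ (m + 1)) - ent (p ^ m)) → e * n ≤ ent (p ^ n) := by
  intro n
  induction n with
  | zero =>
    intro _
    rw [pow_zero, ent_one]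
    simp
  | succ n ih =>
    intro h
    have h1 := ih fun m hm => h m (Nat.lt_succ_of_lt hm)
    have h2 := h n (Nat.lt_succ_self n)
    push_cast
    linarith

theorem criterion2 {S : Finset G} (h : GenSet S) {c0 : ℝ} {K : ℕ → ℝ} (hK : ∀ j, 0 ≤ K j)
    {j0 : ℕ} (hT : Tests S c0 K j0) (hdiv : Diverges K) {mu : G → ℝ} (hmu : Sym2 mu) :
    Liouville mu := by
  intro u0 hu hh x y
  by_contra hne
  obtain ⟨S0, hS0f, hS0, hsum⟩ := hmu.moment
  obtain ⟨K0, hK0⟩ := wl_map hS0f hS0 h.gen (MonoidHom.id G)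
  have hsum' : Summable fun g => mu g * (wordLength (S : Set G) g : ℝ) ^ 2 := by
    refine Summable.of_nonneg_of_le (fun g => mul_nonneg (hmu.nonneg g) (by positivity))
      (fun g => ?_) (hsum.mul_left ((K0 : ℝ) ^ 2))
    have h1 : (wordLength (S : Set G) g : ℝ) ≤ (K0 : ℝ) * (wordLength S0 g : ℝ) := by
      have h2 := hK0 g
      rw [MonoidHom.id_apply] at h2
      exact_mod_cast h2
    have h3 : (wordLength (S : Set G) g : ℝ) ^ 2 ≤ ((K0 : ℝ) * (wordLength S0 g : ℝ)) ^ 2 :=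
      pow_le_pow_left₀ (Nat.cast_nonneg _) h1 2
    calc mu g * (wordLength (S : Set G) g : ℝ) ^ 2
        ≤ mu g * ((K0 : ℝ) * (wordLength S0 g : ℝ)) ^ 2 :=
          mul_le_mul_of_nonneg_left h3 (hmu.nonneg g)
      _ = (K0 : ℝ) ^ 2 * (mu g * (wordLength S0 g : ℝ) ^ 2) := by ring
  obtain ⟨e, he, hfam⟩ :=
    incr_family hmu.nonneg hmu.total hmu.gen hmu.symm h.gen hsum' hu hh ⟨x, y, hne⟩
  have hM : 0 ≤ 2 * ∑' g, mu g * (wordLength (S : Set G) g : ℝ) ^ 2 :=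
    mul_nonneg (by norm_num) (tsum_nonneg fun g => mul_nonneg (hmu.nonneg g) (by positivity))
  obtain ⟨N, hN⟩ := crit5 h hK hT hdiv he hM
  obtain ⟨p, hp1, hp2, hp3, hp4⟩ := hfam N
  refine hN p.coeff (prb_of_pa hp1) hp2 hp3 fun t ht => ?_
  rw [← pw_coeff]
  exact d_tel t fun m hm => hp4 m (lt_of_lt_of_le hm ht)

end Pool.Agent.H34.RQ
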