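import Pool.Agent.H34.SM.Defs
import Pool.Agent.H34.RP.Stm

/-!
# Quasi-isometries, simple random walks on Cayley graphs: definitions
-/

namespace Pool.Agent.H34.RQ

open Pool.Agent.H34.LS Pool.Agent.H34.RP Filter

universe u v

/-- `S` is a finite symmetric generating set without the identity. -/
structure GenSet {G : Type u} [Group G] (S : Finset G) : Prop where
  one : (1 : G) ∉ S
  inv : ∀ s ∈ S, s⁻¹ ∈ S
  gen : Subgroup.closure (S : Set G) = ⊤

/-- the step distribution of simple random walk on the Cayley graph of `S`. -/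
noncomputable def unif {G : Type u} (S : Finset G) : G → ℝ :=
  Set.indicator (S : Set G) (fun _ => 1 / (S.card : ℝ))

/-- the Cayley graph of `S` is Liouville: every bounded function whose value at every vertex `x` is
the average of its values at the neighbours `x s` is constant. -/
def CayleyLiouville {G : Type u} [Group G] (S : Finset G) : Prop :=
  ∀ f : G → ℝ, (∃ C, ∀ x, |f x| ≤ C) → (∀ x, f x = (∑ s ∈ S, f (x * s)) / (S.card : ℝ)) →
    ∀ x y, f x = f y

/-- `φ` is a quasi-isometry with constants `a`, `b` between the word metrics of `S` and `T`. -/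
def IsQuasiIso {G : Type u} {H : Type v} [Group G] [Group H] (S : Finset G) (T : Finset H)
    (φ : G → H) (a b : ℝ) : Prop :=
  (∀ x y, a⁻¹ * wordDist (S : Set G) x y - b ≤ wordDist (T : Set H) (φ x) (φ y) ∧
    wordDist (T : Set H) (φ x) (φ y) ≤ a * wordDist (S : Set G) x y + b) ∧
  ∀ z, ∃ x, wordDist (T : Set H) z (φ x) ≤ b

/-- the Cayley graphs of `S` and `T` are quasi-isometric. -/
def QuasiIsometric {G : Type u} {H : Type v} [Group G] [Group H] (S : Finset G) (T : Finset H) :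
    Prop :=
  ∃ (φ : G → H) (a b : ℝ), 1 ≤ a ∧ 0 ≤ b ∧ IsQuasiIso S T φ a b

/-- slow decay of the return probability `exp (- retLog mu n)` at time `2 n`. -/
def SlowReturn {G : Type u} [Group G] (mu : G → ℝ) : Prop :=
  (∀ c : ℝ, 0 < c → ∀ᶠ n : ℕ in atTop,
    retLog mu n ≤ c * Real.sqrt (n * Real.log (Real.log n))) ∨
  (∃ C : ℝ, ∃ᶠ n : ℕ in atTop, retLog mu n ≤ C * Real.sqrt n) ∨
  Diverges (fun j => retLog mu (2 ^ j) ^ 2 / 2 ^ j)

/-- sum over `s ∈ S` of the square norms of the increments in the direction `s`. -/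
noncomputable def es {G : Type u} [Group G] (S : Finset G) (ξ : G →₀ ℝ) : ℝ :=
  ∑ s ∈ S, dd s ξ

/-- good test functions with constant `c0`, bounds `K`, from the scale `j0` on. -/
def Tests {G : Type u} [Group G] (S : Finset G) (c0 : ℝ) (K : ℕ → ℝ) (j0 : ℕ) : Prop :=
  ∀ j, j0 ≤ j → ∃ ξ : G →₀ ℝ, ξ ≠ 0 ∧ es S ξ ≤ c0 / 4 ^ j * sq ξ ∧
    Real.log ξ.support.card ≤ 4 ^ j * K j

/-- integer form of a quasi-isometry. -/
def NatQI {G : Type u} {H : Type v} [Group G] [Group H] (S : Finset G) (T : Finset H) (φ : G → H)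
    (r : ℕ) : Prop :=
  (∀ x y, wordLength (T : Set H) ((φ x)⁻¹ * φ y) ≤ r * (wordLength (S : Set G) (x⁻¹ * y) + 1)) ∧
  (∀ x y, wordLength (S : Set G) (x⁻¹ * y) ≤ r * (wordLength (T : Set H) ((φ x)⁻¹ * φ y) + 1)) ∧
  ∀ z, ∃ x, wordLength (T : Set H) (z⁻¹ * φ x) ≤ r

end Pool.Agent.H34.RQ
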