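import Pool.Agent.H34.RQ.A
import Pool.Agent.H34.RP.T3
import Pool.Agent.H34.RP.C3

/-!
E: test functions from return probabilities. `ret_tests`: extract of the proof of `return_series` (RP/T3): there the test functions for `P0 = (toPA mu0 _).coeff` are constructed with `K i = (retLog mu0 (2^(J i)) + 1 + 3) / 4^i`
(`conv`, `ret_test`); then `es_le` with its constant as `c0`. `slow_diverges`: RP/Fin (`div_little_o`, `div_frequently`). `tests_of`: `TestFunctions` (RP/Stm) in terms of `es` (`energy_eq`, `norm2_eq`, `es_le`).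
`exists_genSet`: in a group with a generating finitely supported weight: `S` = the support and its inverses, without `1`.
-/

namespace Pool.Agent.H34.RQ

open Pool.Agent.H34.LS Pool.Agent.H34.RP Pool.Agent.H34.SM Filter

universe u

variable {G : Type u} [Group G]

theorem slow_diverges {mu0 : G → ℝ} (h0 : IsFSProb mu0) (hs0 : Symm mu0) (h : SlowReturn mu0) :
    Diverges (fun j => retLog mu0 (2 ^ j) ^ 2 / 2 ^ j) := by
  rcases h with h1 | ⟨C, h1⟩ | h1
  · exact fun c hc => div_little_o (retLog_nonneg h0 hs0) h1 hc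
  · exact fun c hc => div_frequently (retLog_nonneg h0 hs0) (retLog_mono h0 hs0) h1 hc
  · exact h1

/-- comparison of `es` with the energy of `mu0` -/
private theorem e_es {mu0 : G → ℝ} (h0 : IsFSProb mu0) (hg0 : Generating mu0) (S : Finset G) :
    ∃ C : ℝ, 0 < C ∧ ∀ ξ : G →₀ ℝ, es S ξ ≤ C * en (toPA mu0 h0.finite).coeff ξ := by
  refine es_le S (fun g => ?_) ?_
  · rw [coeff_of h0]
    exact h0.nonneg g
  · rw [supp_of h0]
    exact hg0

theorem ret_tests {mu0 : G → ℝ} (h0 : IsFSProb mu0) (hg0 : Generating mu0) (hs0 : Symm mu0)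
    (hdiv : Diverges (fun j => retLog mu0 (2 ^ j) ^ 2 / 2 ^ j)) (S : Finset G) :
    ∃ (c0 : ℝ) (K : ℕ → ℝ), (∀ j, 0 ≤ K j) ∧ Diverges K ∧ Tests S c0 K 0 := by
  have hψ0 : ∀ j : ℕ, 0 ≤ retLog mu0 (2 ^ j) := fun j => retLog_nonneg h0 hs0 _
  have hdiv' : ∀ c : ℝ, 0 < c → ¬ Summable (fun j : ℕ =>
      Real.exp (-(c * ((retLog mu0 (2 ^ j) + 1) ^ 2 / 2 ^ j)))) := by
    intro c hc hsum
    apply hdiv (2 * c) (by linarith)
    have h1 : Summable (fun j : ℕ => Real.exp (2 * c) *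
        Real.exp (-(c * ((retLog mu0 (2 ^ j) + 1) ^ 2 / 2 ^ j)))) := hsum.mul_left _
    refine Summable.of_nonneg_of_le (fun j => (Real.exp_pos _).le) (fun j => ?_) h1
    show Real.exp (-(2 * c * (retLog mu0 (2 ^ j) ^ 2 / 2 ^ j))) ≤ _
    rw [← Real.exp_add]
    apply Real.exp_le_exp.mpr
    have h2 : (1 : ℝ) ≤ 2 ^ j := one_le_pow₀ (by norm_num)
    have h3 : (retLog mu0 (2 ^ j) + 1) ^ 2 / 2 ^ j
        ≤ 2 * (retLog mu0 (2 ^ j) ^ 2 / 2 ^ j) + 2 := by
      have h4 : (retLog mu0 (2 ^ j) + 1) ^ 2 ≤ 2 * retLog mu0 (2 ^ j) ^ 2 + 2 * 2 ^ j := by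
        nlinarith [sq_nonneg (retLog mu0 (2 ^ j) - 1)]
      rw [div_le_iff₀ (by positivity)]
      have h5 : (2 * (retLog mu0 (2 ^ j) ^ 2 / 2 ^ j) + 2) * 2 ^ j
          = 2 * retLog mu0 (2 ^ j) ^ 2 + 2 * 2 ^ j := by
        field_simp
      rw [h5]
      exact h4
    have h6 := mul_le_mul_of_nonneg_left h3 hc.le
    linarith
  obtain ⟨J, hJ1, hJ2⟩ := conv (b := fun j => retLog mu0 (2 ^ j) + 1)
    (fun j => by linarith [hψ0 j]) hdiv'
  have hP0 := prb_of h0
  have hsP : ∀ g, (toPA mu0 h0.finite).coeff g⁻¹ = (toPA mu0 h0.finite).coeff g := by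
    intro g
    rw [coeff_of h0, coeff_of h0]
    exact hs0 g
  obtain ⟨C, hC0, hC⟩ := e_es h0 hg0 S
  refine ⟨C, fun i => (retLog mu0 (2 ^ (J i)) + 1 + 3) / 4 ^ i, ?_, hJ2, ?_⟩
  · intro i
    have := hψ0 (J i)
    show 0 ≤ (retLog mu0 (2 ^ (J i)) + 1 + 3) / 4 ^ i
    positivity
  · intro i _
    obtain ⟨η, hη0, -, hη1, hη2⟩ := ret_test hP0 hsP (k := 2 ^ (J i)) Nat.one_le_two_pow
    have e1 : -Real.log (pw (toPA mu0 h0.finite).coeff (2 * 2 ^ (J i)) 1)
        = retLog mu0 (2 ^ (J i)) := by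
      unfold retLog
      rw [cpow_eq h0]
    rw [e1] at hη1 hη2
    push_cast at hη1
    refine ⟨η, hη0, ?_, ?_⟩
    · have hen : en (toPA mu0 h0.finite).coeff η ≤ 1 / 4 ^ i * sq η := by
        refine le_trans hη1 (mul_le_mul_of_nonneg_right ?_ (sq_nonneg' η))
        refine le_trans ?_ (hJ1 i)
        have h2 : (0 : ℝ) < 2 ^ (J i) := by positivity
        have h3 : retLog mu0 (2 ^ (J i)) / 2 ^ (J i)
            ≤ (retLog mu0 (2 ^ (J i)) + 1) / 2 ^ (J i) :=
          div_le_div_of_nonneg_right (by linarith) h2.le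
        linarith
      calc es S η ≤ C * en (toPA mu0 h0.finite).coeff η := hC η
        _ ≤ C * (1 / 4 ^ i * sq η) := mul_le_mul_of_nonneg_left hen hC0.le
        _ = C / 4 ^ i * sq η := by ring
    · have h16 : Real.log 16 ≤ 4 := by
        have h : (16 : ℝ) = 2 ^ 4 := by norm_num
        rw [h, Real.log_pow]
        have := Real.log_two_lt_d9
        push_cast
        linarith
      have h4 : (4 : ℝ) ^ i * ((retLog mu0 (2 ^ (J i)) + 1 + 3) / 4 ^ i)
          = retLog mu0 (2 ^ (J i)) + 1 + 3 := by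
        field_simp
      rw [h4]
      linarith

theorem tests_of {mu0 : G → ℝ} (h0 : IsFSProb mu0) (hg0 : Generating mu0) {K : ℕ → ℝ}
    (hK : TestFunctions mu0 K) (S : Finset G) :
    ∃ c0 : ℝ, (∀ j, 0 ≤ K j) ∧ Tests S c0 K 0 := by
  obtain ⟨C, hC0, hC⟩ := e_es h0 hg0 S
  refine ⟨C, ?_, ?_⟩
  · intro j
    obtain ⟨ξ, hξ0, -, hξ2⟩ := hK j
    have h1 : (1 : ℝ) ≤ (ξ.support.card : ℝ) := by
      have : 0 < ξ.support.card := by
        rw [Finset.card_pos]
        exact Finsupp.support_nonempty_iff.mpr hξ0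
      exact_mod_cast this
    have h2 : 0 ≤ (4 : ℝ) ^ j * K j := le_trans (Real.log_nonneg h1) hξ2
    exact nonneg_of_mul_nonneg_right h2 (by positivity)
  · intro j _
    obtain ⟨ξ, hξ0, hξ1, hξ2⟩ := hK j
    refine ⟨ξ, hξ0, ?_, hξ2⟩
    rw [energy_eq h0, norm2_eq] at hξ1
    calc es S ξ ≤ C * en (toPA mu0 h0.finite).coeff ξ := hC ξ
      _ ≤ C * (1 / 4 ^ j * sq ξ) := mul_le_mul_of_nonneg_left hξ1 hC0.le
      _ = C / 4 ^ j * sq ξ := by ring

theorem exists_genSet {mu0 : G → ℝ} (h0 : IsFSProb mu0) (hg0 : Generating mu0) :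
    ∃ S : Finset G, GenSet S := by
  classical
  set T : Finset G := h0.finite.toFinset with hT
  have hTm : ∀ g, g ∈ T ↔ mu0 g ≠ 0 := by
    intro g
    rw [hT, Set.Finite.mem_toFinset, Function.mem_support]
  refine ⟨(T ∪ T.image (fun g => g⁻¹)).erase 1, ?_, ?_, ?_⟩
  · exact Finset.notMem_erase _ _
  · intro s hs
    rw [Finset.mem_erase, Finset.mem_union, Finset.mem_image] at hs ⊢
    refine ⟨inv_ne_one.mpr hs.1, ?_⟩
    rcases hs.2 with h1 | ⟨g, hg, rfl⟩
    · exact Or.inr ⟨s, h1, rfl⟩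
    · rw [inv_inv]
      exact Or.inl hg
  · rw [eq_top_iff]
    have h1 : ∀ g, mu0 g ≠ 0 → g ∈ Subgroup.closure
        (((T ∪ T.image (fun g => g⁻¹)).erase 1 : Finset G) : Set G) := by
      intro g hg
      rcases eq_or_ne g 1 with h2 | h2
      · rw [h2]
        exact Subgroup.one_mem _
      · refine Subgroup.subset_closure ?_
        rw [Finset.mem_coe, Finset.mem_erase, Finset.mem_union]
        exact ⟨h2, Or.inl ((hTm g).mpr hg)⟩
    have h2 : Submonoid.closure (Function.support mu0) ≤ (Subgroup.closure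
        (((T ∪ T.image (fun g => g⁻¹)).erase 1 : Finset G) : Set G)).toSubmonoid :=
      Submonoid.closure_le.mpr fun g hg => h1 g hg
    have h3 : Submonoid.closure (Function.support mu0) = ⊤ := hg0
    rw [h3] at h2
    intro g _
    exact h2 (Submonoid.mem_top g)

end Pool.Agent.H34.RQ
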