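import Pool.Agent.H34.RQ.A

/-!
Q2: transfer of the norm and of the support. `qi_norm`: for `y : G` choose `x_y : H` with `|y⁻¹ φ x_y| ≤ r`. `ξ y ^ 2 ≤ 2 ξ (φ x_y)^2 + 2 (ξ (y g_y) - ξ y)^2`, `g_y = y⁻¹ φ x_y` in the ball `B` of radius `r`. Sum over `y` in the support of `ξ`: `sum_y (ξ (y g_y) - ξ y)^2 ≤ sum_{g ∈ B} dd g ξ ≤ card B * r^2 * es S ξ`
(`dd_len`); `sum_y η (x_y)^2 ≤ card B * sum_x η x ^2` since `x_y = x` implies `y ∈ φ x * B⁻¹` (at most `card B` many `y`). `qi_supp`: `η = ξ ∘ φ` is finitely supported: the fibres of `φ` are finite with at most `m` elements (`m` the cardinality of the ball of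
radius `r` of `H`: `φ x = φ y` implies `|x⁻¹ y| ≤ r`), `Finsupp.ofSupportFinite`; the support of `η` is the union of the fibres over the support of `ξ` (`Finset.card_le_mul_card_image` or `Finset.card_biUnion_le`).
-/

namespace Pool.Agent.H34.RQ

open Pool.Agent.H34.LS Pool.Agent.H34.RP Pool.Agent.H34.SM

universe u v

variable {G : Type u} {H : Type v} [Group G] [Group H]

private theorem q2_es_nonneg (S : Finset G) (ξ : G →₀ ℝ) : 0 ≤ es S ξ :=
  Finset.sum_nonneg fun s _ => dd_nonneg' s ξ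

/-- a partial sum of squares is at most the square norm. -/
private theorem q2_sum_le (ξ : G →₀ ℝ) (A : Finset G) : ∑ x ∈ A, ξ x ^ 2 ≤ sq ξ := by
  classical
  rw [sq_sum ξ (T := ξ.support ∪ A) Finset.subset_union_left]
  exact Finset.sum_le_sum_of_subset_of_nonneg Finset.subset_union_right fun _ _ _ => sq_nonneg _

/-- fibre sums: each value is taken at most `m` times. -/
private theorem q2_fib [DecidableEq H] (η : H →₀ ℝ) (c : G → H) (A : Finset G) (m : ℕ)
    (hm : ∀ x, (A.filter fun y => c y = x).card ≤ m) :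
    ∑ y ∈ A, η (c y) ^ 2 ≤ m * sq η := by
  have e1 : ∑ y ∈ A, η (c y) ^ 2 =
      ∑ x ∈ A.image c, (A.filter fun y => c y = x).card • η x ^ 2 :=
    Finset.sum_comp (fun x => η x ^ 2) c
  have e2 : ∑ x ∈ A.image c, (A.filter fun y => c y = x).card • η x ^ 2 ≤
      ∑ x ∈ A.image c, (m : ℝ) * η x ^ 2 := by
    refine Finset.sum_le_sum fun x _ => ?_
    rw [nsmul_eq_mul]
    exact mul_le_mul_of_nonneg_right (by exact_mod_cast hm x) (sq_nonneg _)
  rw [e1]
  refine e2.trans ?_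
  rw [← Finset.mul_sum]
  exact mul_le_mul_of_nonneg_left (q2_sum_le η _) (Nat.cast_nonneg m)

theorem qi_norm {S : Finset G} {T : Finset H} (hS : GenSet S) {φ : H → G} {r : ℕ}
    (h : NatQI T S φ r) : ∃ C : ℝ, 1 ≤ C ∧ ∀ (ξ : G →₀ ℝ) (η : H →₀ ℝ),
      (∀ x, η x = ξ (φ x)) → sq ξ ≤ C * (sq η + es S ξ) := by
  classical
  obtain ⟨B, hB⟩ : ∃ B : Finset G, ∀ g, g ∈ B ↔ wordLength (S : Set G) g ≤ r :=
    ⟨(ball_finite hS r).toFinset, fun g => by rw [Set.Finite.mem_toFinset]; rfl⟩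
  choose c hc using h.2.2
  have hb0 : (0 : ℝ) ≤ (B.card : ℝ) := Nat.cast_nonneg _
  have hr0 : (0 : ℝ) ≤ (r : ℝ) := Nat.cast_nonneg _
  refine ⟨2 * ((B.card : ℝ) + 1) * ((r : ℝ) ^ 2 + 1), ?_, ?_⟩
  · nlinarith [mul_nonneg hb0 (sq_nonneg (r : ℝ)), sq_nonneg (r : ℝ)]
  intro ξ η hη
  have h1 : sq ξ ≤ 2 * ∑ y ∈ ξ.support, η (c y) ^ 2 +
      2 * ∑ y ∈ ξ.support, (ξ (φ (c y)) - ξ y) ^ 2 := by
    rw [sq_sum ξ (Finset.Subset.refl _), Finset.mul_sum, Finset.mul_sum,
      ← Finset.sum_add_distrib]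
    refine Finset.sum_le_sum fun y _ => ?_
    rw [hη]
    nlinarith [sq_nonneg (2 * ξ (φ (c y)) - ξ y)]
  have h2 : ∑ y ∈ ξ.support, η (c y) ^ 2 ≤ (B.card : ℝ) * sq η := by
    refine q2_fib η c ξ.support B.card fun x => ?_
    refine Finset.card_le_card_of_injOn (fun y => y⁻¹ * φ x) (fun y hy => ?_) ?_
    · have hy' : c y = x := (Finset.mem_filter.mp hy).2
      have := hc y
      rw [hy'] at this
      exact Finset.mem_coe.mpr ((hB _).mpr this)
    · intro y _ z _ e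
      exact inv_injective (mul_right_cancel e)
  have h3 : ∑ y ∈ ξ.support, (ξ (φ (c y)) - ξ y) ^ 2 ≤ (B.card : ℝ) * ((r : ℝ) ^ 2 * es S ξ) := by
    have e1 : ∑ y ∈ ξ.support, (ξ (φ (c y)) - ξ y) ^ 2 ≤
        ∑ y ∈ ξ.support, ∑ g ∈ B, (ξ (y * g) - ξ y) ^ 2 := by
      refine Finset.sum_le_sum fun y _ => ?_
      have := Finset.single_le_sum (s := B) (f := fun g => (ξ (y * g) - ξ y) ^ 2)
        (fun g _ => sq_nonneg _) ((hB _).mpr (hc y))
      simpa [mul_assoc] using this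
    rw [Finset.sum_comm] at e1
    refine e1.trans ?_
    rw [← nsmul_eq_mul]
    refine Finset.sum_le_card_nsmul B _ _ fun g hg => ?_
    have e2 : ∑ y ∈ ξ.support, (ξ (y * g) - ξ y) ^ 2 ≤ dd g ξ := by
      have := q2_sum_le (rt g ξ - ξ) ξ.support
      simp only [Finsupp.sub_apply, rt_apply] at this
      exact this
    refine e2.trans ((dd_len hS g ξ).trans ?_)
    refine mul_le_mul_of_nonneg_right ?_ (q2_es_nonneg S ξ)
    have e3 : (wordLength (S : Set G) g : ℝ) ≤ (r : ℝ) := by exact_mod_cast (hB g).mp hg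
    exact pow_le_pow_left₀ (Nat.cast_nonneg _) e3 2
  have q0 := sq_nonneg' η
  have s0 := q2_es_nonneg S ξ
  have r2 := sq_nonneg (r : ℝ)
  have t1 := mul_nonneg hb0 q0
  have t2 := mul_nonneg r2 s0
  have t3 := mul_nonneg hb0 s0
  have t4 := mul_nonneg hb0 (mul_nonneg r2 q0)
  have t5 := mul_nonneg r2 q0
  nlinarith [h1, h2, h3]

theorem qi_supp {S : Finset G} {T : Finset H} (hT : GenSet T) {φ : H → G} {r : ℕ}
    (h : NatQI T S φ r) : ∃ C : ℝ, 1 ≤ C ∧ ∀ ξ : G →₀ ℝ, ∃ η : H →₀ ℝ,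
      (∀ x, η x = ξ (φ x)) ∧ (η.support.card : ℝ) ≤ C * (ξ.support.card : ℝ) := by
  classical
  obtain ⟨B, hB⟩ : ∃ B : Finset H, ∀ g, g ∈ B ↔ wordLength (T : Set H) g ≤ r :=
    ⟨(ball_finite hT r).toFinset, fun g => by rw [Set.Finite.mem_toFinset]; rfl⟩
  have hfib : ∀ x y, φ x = φ y → x⁻¹ * y ∈ B := by
    intro x y e
    have := h.2.1 x y
    rw [e, inv_mul_cancel, wl_one, zero_add, mul_one] at this
    exact (hB _).mpr this
  have hfin : ∀ z, {x | φ x = z}.Finite := by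
    intro z
    rcases Set.eq_empty_or_nonempty {x | φ x = z} with he | ⟨x0, hx0⟩
    · rw [he]
      exact Set.finite_empty
    · refine (B.image fun b => x0 * b).finite_toSet.subset fun x hx => ?_
      rw [Finset.mem_coe, Finset.mem_image]
      exact ⟨x0⁻¹ * x, hfib x0 x (hx0.trans hx.symm), by group⟩
  have hcard : ∀ (z : G) (F : Finset H), (∀ x ∈ F, φ x = z) → F.card ≤ B.card := by
    intro z F hF
    rcases F.eq_empty_or_nonempty with he | ⟨x0, hx0⟩
    · rw [he, Finset.card_empty]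
      exact Nat.zero_le _
    · refine Finset.card_le_card_of_injOn (fun x => x0⁻¹ * x) (fun x hx => ?_) ?_
      · exact Finset.mem_coe.mpr
          (hfib x0 x ((hF x0 hx0).trans (hF x (Finset.mem_coe.mp hx)).symm))
      · intro x _ y _ e
        exact mul_left_cancel e
  refine ⟨max 1 (B.card : ℝ), le_max_left _ _, fun ξ => ?_⟩
  have hs : (Function.support (fun x => ξ (φ x))).Finite := by
    have h1 : (⋃ z ∈ ξ.support, {x | φ x = z}).Finite :=
      Set.Finite.biUnion ξ.support.finite_toSet fun z _ => hfin z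
    refine h1.subset fun x hx => ?_
    rw [Set.mem_iUnion₂]
    exact ⟨φ x, Finsupp.mem_support_iff.mpr hx, rfl⟩
  obtain ⟨η, hη⟩ : ∃ η : H →₀ ℝ, ∀ x, η x = ξ (φ x) :=
    ⟨Finsupp.ofSupportFinite _ hs, fun x => rfl⟩
  refine ⟨η, hη, ?_⟩
  have h1 : η.support.card ≤ B.card * (η.support.image φ).card :=
    Finset.card_le_mul_card_image η.support B.card fun z _ =>
      hcard z _ fun x hx => (Finset.mem_filter.mp hx).2
  have h2 : (η.support.image φ).card ≤ ξ.support.card := by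
    refine Finset.card_le_card fun z hz => ?_
    obtain ⟨x, hx, rfl⟩ := Finset.mem_image.mp hz
    have := Finsupp.mem_support_iff.mp hx
    rw [hη] at this
    exact Finsupp.mem_support_iff.mpr this
  have h3 : (η.support.card : ℝ) ≤ (B.card : ℝ) * (ξ.support.card : ℝ) := by
    exact_mod_cast h1.trans (Nat.mul_le_mul_left _ h2)
  exact h3.trans (mul_le_mul_of_nonneg_right (le_max_right _ _) (Nat.cast_nonneg _))

end Pool.Agent.H34.RQ
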