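import Pool.Agent.H34.RQ.Q1
import Pool.Agent.H34.RQ.Q2

/-!
Q3: transfer of test functions. `C1, C2, C3` the constants of `qi_energy`, `qi_norm`, `qi_supp`; we may assume `c0 > 0` (replace it by `max c0 1`). For `j` with `C2 c0 / 4^j ≤ 1/2`: `sq ξ ≤ 2 C2 sq η`
(`es S ξ ≤ c0 / 4^j sq ξ`), so `η ≠ 0`, `es T η ≤ C1 c0 / 4^j sq ξ ≤ (2 C1 C2 c0) / 4^j * sq η`; `log |supp η| ≤ log C3 + 4^j K j ≤ 4^j (K j + log C3)`. So `c0' = 2 C1 C2 c0`, `K' j = K j + log C3`, `j1` large.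
`Diverges K'`: `exp (-(c (K j + a))) = exp (-(c a)) exp (-(c K j))`.
-/

namespace Pool.Agent.H34.RQ

open Pool.Agent.H34.LS Pool.Agent.H34.RP Pool.Agent.H34.SM

universe u v

variable {G : Type u} {H : Type v} [Group G] [Group H]

private theorem q3_div {K : ℕ → ℝ} (h : Diverges K) (a : ℝ) : Diverges (fun j => K j + a) := by
  intro c hc hs
  refine h c hc ?_
  have h1 : (fun j : ℕ => Real.exp (-(c * K j))) =
      fun j : ℕ => Real.exp (c * a) * Real.exp (-(c * (K j + a))) := by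
    funext j
    rw [← Real.exp_add]
    congr 1
    ring
  rw [h1]
  exact hs.mul_left _

theorem qi_tests {S : Finset G} {T : Finset H} (hS : GenSet S) (hT : GenSet T) {φ : H → G}
    {r : ℕ} (h : NatQI T S φ r) {c0 : ℝ} {K : ℕ → ℝ} (hK : ∀ j, 0 ≤ K j) {j0 : ℕ}
    (hTe : Tests S c0 K j0) (hdiv : Diverges K) :
    ∃ (c1 : ℝ) (K' : ℕ → ℝ) (j1 : ℕ), (∀ j, 0 ≤ K' j) ∧ Diverges K' ∧ Tests T c1 K' j1 := by
  obtain ⟨C1, hC1, he⟩ := qi_energy hS hT h
  obtain ⟨C2, hC2, hn⟩ := qi_norm hS h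
  obtain ⟨C3, hC3, hs⟩ := qi_supp hT h
  have hl : 0 ≤ Real.log C3 := Real.log_nonneg hC3
  set c := max c0 1 with hc
  have hc1 : 1 ≤ c := le_max_right _ _
  obtain ⟨j2, hj2⟩ := pow_unbounded_of_one_lt (2 * C2 * c) (by norm_num : (1 : ℝ) < 4)
  refine ⟨2 * C1 * C2 * c, fun j => K j + Real.log C3, max j0 j2, fun j => add_nonneg (hK j) hl,
    q3_div hdiv _, fun j hj => ?_⟩
  obtain ⟨ξ, hξ, hes, hsup⟩ := hTe j (le_trans (le_max_left _ _) hj)
  obtain ⟨η, hη, hcard⟩ := hs ξ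
  have h4 : (0 : ℝ) < 4 ^ j := by positivity
  have h41 : (1 : ℝ) ≤ 4 ^ j := one_le_pow₀ (by norm_num)
  have hbig : 2 * C2 * c ≤ 4 ^ j := by
    refine hj2.le.trans ?_
    exact pow_le_pow_right₀ (by norm_num) (le_trans (le_max_right _ _) hj)
  have hsq : 0 < sq ξ := Pool.Agent.H34.RP.sq_pos hξ
  have hes' : es S ξ ≤ c / 4 ^ j * sq ξ := by
    refine hes.trans (mul_le_mul_of_nonneg_right ?_ hsq.le)
    exact div_le_div_of_nonneg_right (le_max_left _ _) h4.le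
  have h1 : C2 * es S ξ ≤ 1 / 2 * sq ξ := by
    have h2 : C2 * (c / 4 ^ j) ≤ 1 / 2 := by
      rw [← mul_div_assoc, div_le_iff₀ h4]
      linarith
    calc C2 * es S ξ ≤ C2 * (c / 4 ^ j * sq ξ) := mul_le_mul_of_nonneg_left hes' (by linarith)
      _ = C2 * (c / 4 ^ j) * sq ξ := by ring
      _ ≤ 1 / 2 * sq ξ := mul_le_mul_of_nonneg_right h2 hsq.le
  have h2 : sq ξ ≤ 2 * C2 * sq η := by
    have h3 := hn ξ η hη
    rw [mul_add] at h3
    linarith
  refine ⟨η, ?_, ?_, ?_⟩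
  · intro h0
    rw [h0] at h2
    have h3 : sq (0 : H →₀ ℝ) = 0 := Finsupp.sum_zero_index
    rw [h3, mul_zero] at h2
    linarith
  · calc es T η ≤ C1 * es S ξ := he ξ η hη
      _ ≤ C1 * (c / 4 ^ j * sq ξ) := mul_le_mul_of_nonneg_left hes' hC1.le
      _ ≤ C1 * (c / 4 ^ j * (2 * C2 * sq η)) := by
          refine mul_le_mul_of_nonneg_left (mul_le_mul_of_nonneg_left h2 ?_) hC1.le
          exact div_nonneg (by linarith) h4.le
      _ = 2 * C1 * C2 * c / 4 ^ j * sq η := by ring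
  · have hcξ : (0 : ℝ) < ξ.support.card := by
      rw [Nat.cast_pos, Finset.card_pos]
      exact Finsupp.support_nonempty_iff.2 hξ
    have h3 : Real.log η.support.card ≤ Real.log C3 + Real.log ξ.support.card := by
      rw [← Real.log_mul (by linarith) hcξ.ne']
      rcases Nat.eq_zero_or_pos η.support.card with h0 | h0
      · rw [h0, Nat.cast_zero, Real.log_zero]
        refine Real.log_nonneg ?_
        have h5 : (1 : ℝ) ≤ ξ.support.card := by exact_mod_cast (Nat.cast_pos.1 hcξ : 0 < ξ.support.card)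
        nlinarith
      · exact Real.log_le_log (by exact_mod_cast h0) hcard
    have h5 : Real.log C3 ≤ 4 ^ j * Real.log C3 := le_mul_of_one_le_left hl h41
    show Real.log η.support.card ≤ 4 ^ j * (K j + Real.log C3)
    rw [mul_add]
    linarith

end Pool.Agent.H34.RQ
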