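import Pool.Agent.H34.RQ.Defs
import Pool.Agent.H34.LS.W1

/-!
Q4: integer form and inverse of a quasi-isometry. `natQI_of`: `wordDist S x y = wordLength S (x⁻¹ y)`; `r` a natural number `≥ a + b + a b + 1`: `|..|_T ≤ a |..|_S + b ≤ r (|..|_S + 1)`, `|..|_S ≤ a (|..|_T + b) ≤ r (|..|_T + 1)`.
`natQI_symm`: choose `ψ z` with `|z⁻¹ φ (ψ z)|_T ≤ r`. `|(ψ z)⁻¹ ψ w|_S ≤ r (|(φ ψ z)⁻¹ φ ψ w|_T + 1) ≤ r (2 r + |z⁻¹ w|_T + 1)`, `|z⁻¹ w|_T ≤ 2 r + |(φ ψ z)⁻¹ φ ψ w|_T ≤ 2 r + r (|(ψ z)⁻¹ ψ w|_S + 1)`, and for `x : G`: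
`|x⁻¹ ψ (φ x)|_S ≤ r (|(φ x)⁻¹ φ ψ φ x|_T + 1) ≤ r (r + 1)`. Triangle inequality: `wl_mul`, `wl_inv`. `r' = r (2 r + 2) + 3 r` is large enough.
-/

namespace Pool.Agent.H34.RQ

open Pool.Agent.H34.LS Pool.Agent.H34.RP Pool.Agent.H34.SM

universe u v

variable {G : Type u} {H : Type v} [Group G] [Group H]

theorem natQI_of {S : Finset G} {T : Finset H} (h : QuasiIsometric S T) :
    ∃ (φ : G → H) (r : ℕ), NatQI S T φ r := by
  obtain ⟨φ, a, b, ha, hb, hqi, hsurj⟩ := h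
  have hab : 0 ≤ a * b := mul_nonneg (by linarith) hb
  obtain ⟨r, hr⟩ : ∃ r : ℕ, a + b + a * b + 1 ≤ r := exists_nat_ge _
  have har : a ≤ r := by linarith
  have hbr : b ≤ r := by linarith
  have habr : a * b ≤ r := by linarith
  refine ⟨φ, r, ?_, ?_, ?_⟩
  · intro x y
    have h1 := (hqi x y).2
    unfold wordDist at h1
    have h2 : (wordLength (T : Set H) ((φ x)⁻¹ * φ y) : ℝ) ≤
        ((r * (wordLength (S : Set G) (x⁻¹ * y) + 1) : ℕ) : ℝ) := by
      push_cast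
      have h3 : a * (wordLength (S : Set G) (x⁻¹ * y) : ℝ) ≤
          r * (wordLength (S : Set G) (x⁻¹ * y) : ℝ) :=
        mul_le_mul_of_nonneg_right har (Nat.cast_nonneg _)
      linarith
    exact_mod_cast h2
  · intro x y
    have h1 := (hqi x y).1
    unfold wordDist at h1
    have h2 : (wordLength (S : Set G) (x⁻¹ * y) : ℝ) ≤
        ((r * (wordLength (T : Set H) ((φ x)⁻¹ * φ y) + 1) : ℕ) : ℝ) := by
      push_cast
      have ha0 : 0 < a := by linarith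
      have h3 : (wordLength (S : Set G) (x⁻¹ * y) : ℝ) ≤
          a * ((wordLength (T : Set H) ((φ x)⁻¹ * φ y) : ℝ) + b) := by
        have h4 : a⁻¹ * (wordLength (S : Set G) (x⁻¹ * y) : ℝ) ≤
            (wordLength (T : Set H) ((φ x)⁻¹ * φ y) : ℝ) + b := by linarith
        have h5 := mul_le_mul_of_nonneg_left h4 ha0.le
        rwa [← mul_assoc, mul_inv_cancel₀ ha0.ne', one_mul] at h5
      have h6 : a * (wordLength (T : Set H) ((φ x)⁻¹ * φ y) : ℝ) ≤
          r * (wordLength (T : Set H) ((φ x)⁻¹ * φ y) : ℝ) :=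
        mul_le_mul_of_nonneg_right har (Nat.cast_nonneg _)
      linarith
    exact_mod_cast h2
  · intro z
    obtain ⟨x, hx⟩ := hsurj z
    refine ⟨x, ?_⟩
    unfold wordDist at hx
    exact_mod_cast hx.trans hbr

private theorem q4_tri {T : Finset H} (hT : GenSet T) (a b c : H) :
    wordLength (T : Set H) (a * b * c) ≤ wordLength (T : Set H) a + wordLength (T : Set H) b +
      wordLength (T : Set H) c :=
  (wl_mul hT.gen (a * b) c).trans (Nat.add_le_add_right (wl_mul hT.gen a b) _)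

theorem natQI_symm {S : Finset G} {T : Finset H} (hS : GenSet S) (hT : GenSet T) {φ : G → H}
    {r : ℕ} (h : NatQI S T φ r) : ∃ (ψ : H → G) (r' : ℕ), NatQI T S ψ r' := by
  obtain ⟨h1, h2, h3⟩ := h
  choose ψ hψ using h3
  have hψ' : ∀ z, wordLength (T : Set H) ((φ (ψ z))⁻¹ * z) ≤ r := by
    intro z
    have e : (φ (ψ z))⁻¹ * z = (z⁻¹ * φ (ψ z))⁻¹ := by group
    rw [e, wl_inv hT.gen]
    exact hψ z
  refine ⟨ψ, r * (2 * r + 2) + 3 * r, ?_, ?_, ?_⟩
  · intro z w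
    have e : (φ (ψ z))⁻¹ * φ (ψ w) = ((φ (ψ z))⁻¹ * z) * (z⁻¹ * w) * (w⁻¹ * φ (ψ w)) := by group
    have h4 : wordLength (T : Set H) ((φ (ψ z))⁻¹ * φ (ψ w)) ≤
        r + wordLength (T : Set H) (z⁻¹ * w) + r := by
      rw [e]
      refine (q4_tri hT _ _ _).trans ?_
      have := hψ' z
      have := hψ w
      omega
    refine (h2 (ψ z) (ψ w)).trans ?_
    have h5 := Nat.mul_le_mul_left r (Nat.add_le_add_right h4 1)
    refine h5.trans ?_
    generalize wordLength (T : Set H) (z⁻¹ * w) = D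
    nlinarith [Nat.zero_le (r * D), Nat.zero_le (r * r * D)]
  · intro z w
    have e : z⁻¹ * w = (z⁻¹ * φ (ψ z)) * ((φ (ψ z))⁻¹ * φ (ψ w)) * ((φ (ψ w))⁻¹ * w) := by group
    have h4 : wordLength (T : Set H) (z⁻¹ * w) ≤
        r + wordLength (T : Set H) ((φ (ψ z))⁻¹ * φ (ψ w)) + r := by
      rw [e]
      refine (q4_tri hT _ _ _).trans ?_
      have := hψ z
      have := hψ' w
      omega
    have h5 := h1 (ψ z) (ψ w)
    generalize wordLength (S : Set G) ((ψ z)⁻¹ * ψ w) = D at h5 ⊢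
    nlinarith [Nat.zero_le (r * D), Nat.zero_le (r * r * D), Nat.zero_le (r * r)]
  · intro x
    refine ⟨φ x, ?_⟩
    have h4 := h2 x (ψ (φ x))
    have h5 := hψ (φ x)
    have h6 := Nat.mul_le_mul_left r (Nat.add_le_add_right h5 1)
    refine (h4.trans h6).trans ?_
    nlinarith [Nat.zero_le (r * r)]

end Pool.Agent.H34.RQ
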