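import Pool.Agent.H34.RQ.A
import Pool.Agent.H34.DC.J6
import Pool.Agent.H34.DC.J2

/-!
W: test functions from small windows. `P` = uniform distribution on `S` (finitely supported function `G →₀ ℝ`, symmetric; for `S = ∅`, i.e. `G` trivial, take `ξ = single 1 1` directly), `hh g = toAdd (f g)`, `CWalk P hh R` (DC/Defs; the mean is `0` by
symmetry: substitution `g ↦ g⁻¹`), `subsol` (DC/J1) gives `C, w0`; `rch_sub` (DC/J2) gives `B`. For `j` large, `w = 2^(j-1)`, `T = Rch P hh w` (finite, inside `window f S0 (w + B) ⊆ window f S0 (2 w)`; see DC/J6 `j6_scale`), `ξ x = psi w (hh x)` for `x ∈ T`, `0` otherwise.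
`ξ 1 = 1`, so `ξ ≠ 0`. For `x ∈ T`: `sum_g P g ξ (x g) = sum_g P g psi w (hh x + hh g) ≥ (1 - C / w^2) ξ x`: if `|hh (x g)| ≤ w` then `x g ∈ Rch` (append `g`; DC/J2 has this as a private lemma), otherwise `psi w (hh (x g)) = 0` (`psi_zero`). Hence
`sum_g P g * ip ξ (rt g ξ) = sum_{x ∈ T} ξ x sum_g P g ξ (x g) ≥ (1 - C / w^2) sq ξ`, and `en P ξ = sq ξ - sum_g P g * ip ξ (rt g ξ) ≤ (C / w^2) sq ξ` (`en_eq`, RP/A1). `es S ξ = 2 card S * en P ξ`. `c0 = 8 card S * C` (`4 C / 4^j = C / w^2`).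
`log |supp ξ| ≤ log |T| ≤ log |window f S0 (2^j)|`.
-/

namespace Pool.Agent.H34.RQ

open Pool.Agent.H34.LS Pool.Agent.H34.RP Pool.Agent.H34.SM Pool.Agent.H34.DC

universe u

variable {G : Type u} [Group G]

private theorem w_append {P : G →₀ ℝ} {hh : G → ℤ} {w : ℕ} {x g : G} (hx : x ∈ Rch P hh w)
    (hg : P g ≠ 0) (hw : |hh (x * g)| ≤ (w : ℤ)) : x * g ∈ Rch P hh w := by
  obtain ⟨l, h1, h2, h3⟩ := hx
  refine ⟨l ++ [g], ?_, ?_, fun k => ?_⟩
  · intro a ha
    rcases List.mem_append.1 ha with h | h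
    · exact h1 a h
    · rw [List.mem_singleton.1 h]
      exact hg
  · rw [List.prod_append, h2, List.prod_singleton]
  · by_cases hk : k ≤ l.length
    · rw [List.take_append_of_le_length hk]
      exact h3 k
    · have hk' : (l ++ [g]).length ≤ k := by
        rw [List.length_append, List.length_singleton]
        omega
      rw [List.take_of_length_le hk', List.prod_append, h2, List.prod_singleton]
      exact hw

/-- the energy of the restriction of `psi w` to the reachable set -/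
private theorem w_energy {P : G →₀ ℝ} {hh : G → ℤ} {R : ℕ} (hC : CWalk P hh R) {w : ℕ}
    (hw : 1 ≤ w) {c : ℝ}
    (hsub : ∀ x : ℤ, (1 - c) * psi w x ≤ P.sum (fun g a => a * psi w (x + hh g)))
    {T : Finset G} (hT : (T : Set G) = Rch P hh w) :
    ∃ ξ : G →₀ ℝ, ξ ≠ 0 ∧ ξ.support ⊆ T ∧ en P ξ ≤ c * sq ξ := by
  classical
  set ξ : G →₀ ℝ := Finsupp.indicator T fun x _ => psi w (hh x) with hξ
  have hξa : ∀ x, ξ x = if x ∈ T then psi w (hh x) else 0 := by
    intro x
    rw [hξ, Finsupp.indicator_apply]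
    by_cases hx : x ∈ T
    · rw [dif_pos hx, if_pos hx]
    · rw [dif_neg hx, if_neg hx]
  have hξ0 : ∀ x, 0 ≤ ξ x := by
    intro x
    rw [hξa]
    split_ifs
    · exact psi_nonneg w _
    · exact le_rfl
  have hsup : ξ.support ⊆ T := Finsupp.support_indicator_subset _ _
  have h1T : (1 : G) ∈ T := by
    have h1 := one_mem_rch hC w
    rw [← hT] at h1
    exact h1
  have hh1 : hh 1 = 0 := by
    have h1 := hC.hom 1 1
    rw [mul_one] at h1
    omega
  have hne : ξ ≠ 0 := by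
    intro h0
    have h1 : ξ 1 = 0 := by rw [h0]; rfl
    rw [hξa, if_pos h1T, hh1] at h1
    have h2 : 0 < psi w 0 := psi_pos (by rw [abs_zero]; exact_mod_cast hw)
    exact h2.ne' h1
  have hkey : ∀ x ∈ T, (1 - c) * ξ x ≤ ∑ g ∈ P.support, P g * ξ (x * g) := by
    intro x hx
    rw [hξa x, if_pos hx]
    refine (hsub (hh x)).trans ?_
    rw [Finsupp.sum]
    refine Finset.sum_le_sum fun g hg => ?_
    have hg' : P g ≠ 0 := Finsupp.mem_support_iff.1 hg
    refine mul_le_mul_of_nonneg_left ?_ (hC.nonneg g)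
    rw [← hC.hom x g]
    by_cases hc : |hh (x * g)| ≤ (w : ℤ)
    · have hx' : x ∈ Rch P hh w := by
        rw [← hT]
        exact hx
      have h4 := w_append hx' hg' hc
      rw [← hT] at h4
      have h5 : x * g ∈ T := h4
      rw [hξa, if_pos h5]
    · rw [psi_zero hw (not_le.1 hc).le]
      exact hξ0 _
  refine ⟨ξ, hne, hsup, ?_⟩
  rw [en_eq ⟨hC.nonneg, hC.total⟩]
  have h1 : P.sum (fun g a => a * ip ξ (rt g ξ)) =
      ∑ x ∈ T, ξ x * ∑ g ∈ P.support, P g * ξ (x * g) := by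
    rw [Finsupp.sum]
    have h2 : ∀ g ∈ P.support, P g * ip ξ (rt g ξ) = ∑ x ∈ T, ξ x * (P g * ξ (x * g)) := by
      intro g _
      rw [ip_sum ξ _ hsup, Finset.mul_sum]
      refine Finset.sum_congr rfl fun x _ => ?_
      rw [rt_apply]
      ring
    rw [Finset.sum_congr rfl h2, Finset.sum_comm]
    refine Finset.sum_congr rfl fun x _ => ?_
    rw [Finset.mul_sum]
  have h3 : (1 - c) * sq ξ ≤ ∑ x ∈ T, ξ x * ∑ g ∈ P.support, P g * ξ (x * g) := by
    rw [sq_sum ξ hsup, Finset.mul_sum]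
    refine Finset.sum_le_sum fun x hx => ?_
    have h4 := mul_le_mul_of_nonneg_left (hkey x hx) (hξ0 x)
    calc (1 - c) * ξ x ^ 2 = ξ x * ((1 - c) * ξ x) := by ring
      _ ≤ _ := h4
  rw [h1]
  linarith

/-- the uniform distribution -/
private theorem w_unif (f : G →* Multiplicative ℤ) {S : Finset G} (hS : GenSet S)
    (hne : S.Nonempty) :
    ∃ (P : G →₀ ℝ) (R : ℕ), CWalk P (fun g => Multiplicative.toAdd (f g)) R ∧
      ∀ ξ : G →₀ ℝ, es S ξ = 2 * (S.card : ℝ) * en P ξ := by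
  classical
  have hcard : (0 : ℝ) < S.card := by exact_mod_cast hne.card_pos
  set P : G →₀ ℝ := Finsupp.indicator S fun _ _ => (1 / (S.card : ℝ)) with hPdef
  have hPa : ∀ g, P g = if g ∈ S then 1 / (S.card : ℝ) else 0 := by
    intro g
    rw [hPdef, Finsupp.indicator_apply]
    by_cases hgS : g ∈ S
    · rw [dif_pos hgS, if_pos hgS]
    · rw [dif_neg hgS, if_neg hgS]
  have hPS : ∀ F : G → ℝ → ℝ, (∀ g, F g 0 = 0) → P.sum F = ∑ g ∈ S, F g (1 / (S.card : ℝ)) := by
    intro F hF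
    rw [Finsupp.sum_of_support_subset P (Finsupp.support_indicator_subset _ _) F
      (fun g _ => hF g)]
    refine Finset.sum_congr rfl fun g hg => ?_
    rw [hPa, if_pos hg]
  have hPmem : ∀ g, P g ≠ 0 → g ∈ S := by
    intro g hg
    by_contra h
    rw [hPa, if_neg h] at hg
    exact hg rfl
  refine ⟨P, S.sup (fun g => (Multiplicative.toAdd (f g) : ℤ).natAbs), ⟨?_, ?_, ?_, ?_, ?_⟩, ?_⟩
  · intro g
    rw [hPa]
    split_ifs <;> positivity
  · unfold tot
    rw [hPS _ (fun _ => rfl), Finset.sum_const, nsmul_eq_mul]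
    field_simp
  · intro x y
    show Multiplicative.toAdd (f (x * y)) = _
    rw [map_mul, toAdd_mul]
  · intro g hg
    have h1 : (Multiplicative.toAdd (f g) : ℤ).natAbs ≤
        S.sup (fun g => (Multiplicative.toAdd (f g) : ℤ).natAbs) :=
      Finset.le_sup (f := fun g => (Multiplicative.toAdd (f g) : ℤ).natAbs) (hPmem g hg)
    show |(Multiplicative.toAdd (f g) : ℤ)| ≤ _
    rw [Int.abs_eq_natAbs]
    exact_mod_cast h1
  · rw [hPS (fun g a => a * ((Multiplicative.toAdd (f g) : ℤ) : ℝ)) (fun g => zero_mul _)]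
    have h1 : ∑ g ∈ S, 1 / (S.card : ℝ) * ((Multiplicative.toAdd (f g) : ℤ) : ℝ) =
        ∑ g ∈ S, -(1 / (S.card : ℝ) * ((Multiplicative.toAdd (f g) : ℤ) : ℝ)) := by
      refine Finset.sum_nbij' (fun g => g⁻¹) (fun g => g⁻¹) (fun g hg => hS.inv g hg)
        (fun g hg => hS.inv g hg) (fun g _ => inv_inv g) (fun g _ => inv_inv g) ?_
      intro g _
      rw [map_inv, toAdd_inv]
      push_cast
      ring
    rw [Finset.sum_neg_distrib] at h1
    linarith
  · intro ξ
    unfold en es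
    rw [hPS (fun g a => a * dd g ξ) (fun g => zero_mul _), ← Finset.mul_sum]
    field_simp

theorem window_tests (f : G →* Multiplicative ℤ) {S0 : Set G} (hS0 : Subgroup.closure S0 = ⊤)
    (hfin : ∀ n, (window f S0 n).Finite) {S : Finset G} (hS : GenSet S) :
    ∃ (c0 : ℝ) (j0 : ℕ),
      Tests S c0 (fun j => Real.log ((window f S0 (2 ^ j)).ncard : ℝ) / 4 ^ j) j0 := by
  classical
  have hlog : ∀ j : ℕ, (4 : ℝ) ^ j * (Real.log ((window f S0 (2 ^ j)).ncard : ℝ) / 4 ^ j) =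
      Real.log ((window f S0 (2 ^ j)).ncard : ℝ) := by
    intro j
    field_simp
  rcases S.eq_empty_or_nonempty with hemp | hne
  · refine ⟨0, 0, fun j _ => ⟨Finsupp.single 1 1, ?_, ?_, ?_⟩⟩
    · exact Finsupp.single_ne_zero.2 one_ne_zero
    · rw [hemp]
      unfold es
      rw [Finset.sum_empty, zero_div, zero_mul]
    · show _ ≤ (4 : ℝ) ^ j * (Real.log ((window f S0 (2 ^ j)).ncard : ℝ) / 4 ^ j)
      have h1 : (Finsupp.single (1 : G) (1 : ℝ)).support.card = 1 :=
        Finsupp.card_support_eq_one.2 ⟨1, by rw [Finsupp.single_eq_same]; exact one_ne_zero,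
          by rw [Finsupp.single_eq_same]⟩
      rw [hlog, h1, Nat.cast_one, Real.log_one]
      exact Real.log_natCast_nonneg _
  · obtain ⟨P, R, hC, hes⟩ := w_unif f hS hne
    obtain ⟨C, hC0, w0, hw0, hsub⟩ := subsol hC
    obtain ⟨B, hB⟩ := rch_sub f hS0 P
    obtain ⟨j1, hj1, hj1'⟩ : ∃ j1 : ℕ, B ≤ 2 ^ j1 ∧ w0 ≤ 2 ^ j1 := by
      refine ⟨B + w0, ?_, ?_⟩
      · exact (Nat.le_add_right B w0).trans (Nat.lt_two_pow_self).le
      · exact (Nat.le_add_left w0 B).trans (Nat.lt_two_pow_self).le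
    refine ⟨8 * (S.card : ℝ) * C, j1 + 1, fun j hj => ?_⟩
    obtain ⟨i, rfl⟩ : ∃ i, j = i + 1 := ⟨j - 1, by omega⟩
    have hi : j1 ≤ i := by omega
    have hpow : (2 : ℕ) ^ j1 ≤ 2 ^ i := Nat.pow_le_pow_right (by norm_num) hi
    have hwi : w0 ≤ 2 ^ i := hj1'.trans hpow
    have hBi : B ≤ 2 ^ i := hj1.trans hpow
    obtain ⟨-, h2⟩ := hsub (2 ^ i) hwi
    have hss : Rch P (fun g => Multiplicative.toAdd (f g)) (2 ^ i) ⊆
        window f S0 (2 ^ (i + 1)) :=
      (hB (2 ^ i)).trans (window_mono f S0 (by rw [pow_succ]; omega))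
    have hf : (Rch P (fun g => Multiplicative.toAdd (f g)) (2 ^ i)).Finite :=
      (hfin (2 ^ (i + 1))).subset hss
    obtain ⟨ξ, hξ0, hξs, hξe⟩ := w_energy hC (hw0.trans hwi) h2 (T := hf.toFinset)
      (Set.Finite.coe_toFinset hf)
    have h4 : C / ((2 ^ i : ℕ) : ℝ) ^ 2 = 4 * C / 4 ^ (i + 1) := by
      have h5 : (4 : ℝ) ^ i = (2 ^ i) ^ 2 := by
        rw [← pow_mul, mul_comm i 2, pow_mul]
        norm_num
      push_cast
      rw [pow_succ (4 : ℝ) i, h5, mul_comm ((2 ^ i : ℝ) ^ 2) 4, mul_div_mul_left _ _ (by norm_num)]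
    refine ⟨ξ, hξ0, ?_, ?_⟩
    · rw [hes ξ]
      rw [h4] at hξe
      have h6 : (0 : ℝ) ≤ 2 * (S.card : ℝ) := by positivity
      calc 2 * (S.card : ℝ) * en P ξ ≤ 2 * (S.card : ℝ) * (4 * C / 4 ^ (i + 1) * sq ξ) :=
            mul_le_mul_of_nonneg_left hξe h6
        _ = 8 * (S.card : ℝ) * C / 4 ^ (i + 1) * sq ξ := by ring
    · show _ ≤ (4 : ℝ) ^ (i + 1) * (Real.log ((window f S0 (2 ^ (i + 1))).ncard : ℝ) /
        4 ^ (i + 1))
      rw [hlog]
      have hpos : 0 < ξ.support.card :=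
        Finset.card_pos.2 (Finsupp.support_nonempty_iff.2 hξ0)
      have h6 : ξ.support.card ≤ (window f S0 (2 ^ (i + 1))).ncard := by
        refine (Finset.card_le_card hξs).trans ?_
        rw [← Set.ncard_coe_finset]
        refine Set.ncard_le_ncard ?_ (hfin _)
        rw [Set.Finite.coe_toFinset]
        exact hss
      refine Real.log_le_log ?_ ?_
      · exact_mod_cast hpos
      · exact_mod_cast h6

end Pool.Agent.H34.RQ
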