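import Pool.Agent.H34.RQ.D
import Pool.Agent.H34.RQ.E
import Pool.Agent.H34.RQ.Q3
import Pool.Agent.H34.RQ.Q4
import Pool.Agent.H34.RQ.W
import Pool.Agent.H34.RP.Fin

/-!
Fin: final statements.
-/

namespace Pool.Agent.H34.RQ

open Pool.Agent.H34.LS Pool.Agent.H34.RP Pool.Agent.H34.SM Filter

universe u v

/-- every symmetric generating probability measure with finite second moment, on every finitely
generated group quasi-isometric to `G`, is Liouville. -/
def QILiouville (G : Type u) [Group G] : Prop :=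
  ∀ (H : Type u) [Group H] (S : Finset G) (T : Finset H), GenSet S → GenSet T →
    QuasiIsometric S T → ∀ mu : H → ℝ, Sym2 mu → Liouville mu

theorem qi_of_tests {G : Type u} [Group G]
    (h : ∀ S : Finset G, GenSet S → ∃ (c0 : ℝ) (K : ℕ → ℝ) (j0 : ℕ), (∀ j, 0 ≤ K j) ∧
      Diverges K ∧ Tests S c0 K j0) : QILiouville G := by
  intro H _ S T hS hT hq mu hmu
  obtain ⟨φ, r, hφ⟩ := natQI_of hq
  obtain ⟨ψ, r', hψ⟩ := natQI_symm hS hT hφ
  obtain ⟨c0, K, j0, hK, hdiv, hTe⟩ := h S hS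
  obtain ⟨c1, K', j1, hK', hdiv', hTe'⟩ := qi_tests hS hT hψ hK hTe hdiv
  exact criterion2 hT hK' hTe' hdiv' hmu

theorem qi_slow {G : Type u} [Group G] {mu0 : G → ℝ} (h0 : IsFSProb mu0) (hg0 : Generating mu0)
    (hs0 : Symm mu0) (h : SlowReturn mu0) : QILiouville G := by
  refine qi_of_tests fun S _ => ?_
  obtain ⟨c0, K, hK, hdiv, hT⟩ := ret_tests h0 hg0 hs0 (slow_diverges h0 hs0 h) S
  exact ⟨c0, K, 0, hK, hdiv, hT⟩

theorem qi_test {G : Type u} [Group G] {mu0 : G → ℝ} (h0 : IsFSProb mu0) (hg0 : Generating mu0)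
    {K : ℕ → ℝ} (hK : TestFunctions mu0 K) (hdiv : Diverges K) : QILiouville G := by
  refine qi_of_tests fun S _ => ?_
  obtain ⟨c0, hK0, hT⟩ := tests_of h0 hg0 hK S
  exact ⟨c0, K, 0, hK0, hdiv, hT⟩

theorem qi_window {G : Type u} [Group G] (f : G →* Multiplicative ℤ) {S0 : Set G}
    (hS0 : Subgroup.closure S0 = ⊤) (hfin : ∀ n, (window f S0 n).Finite)
    (hdiv : Diverges (fun j => Real.log ((window f S0 (2 ^ j)).ncard : ℝ) / 4 ^ j)) :
    QILiouville G := by
  refine qi_of_tests fun S hS => ?_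
  obtain ⟨c0, j0, hT⟩ := window_tests f hS0 hfin hS
  exact ⟨c0, _, j0, fun j => div_nonneg (Real.log_natCast_nonneg _) (by positivity), hdiv, hT⟩

theorem main2 :
    (∀ (G : Type u) [Group G] (mu : G → ℝ), IsFSProb mu → Generating mu → Symm mu →
      SlowReturn mu → QILiouville G) ∧
    (∀ (G : Type u) [Group G] (mu : G → ℝ) (K : ℕ → ℝ), IsFSProb mu → Generating mu →
      TestFunctions mu K → Diverges K → QILiouville G) ∧
    (∀ (G : Type u) [Group G] (f : G →* Multiplicative ℤ) (S : Set G),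
      Subgroup.closure S = ⊤ → (∀ n, (window f S n).Finite) →
      Diverges (fun j => Real.log ((window f S (2 ^ j)).ncard : ℝ) / 4 ^ j) → QILiouville G) ∧
    ∀ κ : ℝ, 0 < κ → ∃ (G : Type) (_ : Group G) (f : G →* Multiplicative ℤ) (S : Set G),
      LocFinByZ G ∧ Function.Surjective f ∧ S.Finite ∧ Subgroup.closure S = ⊤ ∧
      (∀ n, (window f S n).Finite) ∧
      (∀ᶠ n : ℕ in atTop, Real.log ((window f S n).ncard : ℝ) ≤
        κ * (n : ℝ) ^ 2 * Real.log (Real.log n)) ∧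
      ∃ mu : G → ℝ, IsFSProb mu ∧ Generating mu ∧ Symm mu ∧
        (∀ᶠ n : ℕ in atTop, retLog mu n ≤ κ * Real.sqrt (n * Real.log (Real.log n))) ∧
        ¬ TrivialBoundary mu := by
  refine ⟨?_, ?_, ?_, ?_⟩
  · intro G _ mu h hg hs hslow
    exact qi_slow h hg hs hslow
  · intro G _ mu K h hg hK hdiv
    exact qi_test h hg hK hdiv
  · intro G _ f S hS hfin hdiv
    exact qi_window f hS hfin hdiv
  · exact sharp_both

end Pool.Agent.H34.RQ
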