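import Pool.Agent.H34.RQ.A

/-!
Q1: transfer of the energy. `r` from `NatQI T S φ r` (`φ : H → G`). For `t ∈ T`, `x : H`: `g = (φ x)⁻¹ * φ (x t)` has length `≤ 2 r` (`|t| ≤ 1`), and `η (x t) - η x = ξ (φ x * g) - ξ (φ x)`; so `(η (x t) - η x)^2 ≤ sum_{g ∈ B} (ξ (φ x * g) - ξ (φ x))^2`,
`B` the ball of radius `2 r` of `G` (`ball_finite`). Sum over `x` (a finite set containing all `x` with a nonzero term): the fibres of `φ` have at most `m` elements, `m` the cardinality of the ball of radius `r` of `H`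
(`φ x = φ y` implies `|x⁻¹ y| ≤ r (0 + 1)`), so `sum_x F (φ x) ≤ m * sum_y F y` for `F ≥ 0`; hence `dd t η ≤ m * sum_{g ∈ B} dd g ξ ≤ m * card B * (2 r)^2 * es S ξ` (`dd_len`). Sum over `t ∈ T`.
`dd g ξ = sum_y (ξ (y g) - ξ y)^2` over any finite set containing the supports (`rt_apply`, `sq_sum`).
-/

namespace Pool.Agent.H34.RQ

open Pool.Agent.H34.LS Pool.Agent.H34.RP Pool.Agent.H34.SM

universe u v

variable {G : Type u} {H : Type v} [Group G] [Group H]

/-- fibres are bounded. -/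
theorem qi_sum {S : Finset G} {T : Finset H} (hT : GenSet T) {φ : H → G} {r : ℕ}
    (h : NatQI T S φ r) : ∃ m : ℝ, 1 ≤ m ∧ ∀ (A : Finset H) (B : Finset G) (F : G → ℝ),
      (∀ y, 0 ≤ F y) → (∀ x ∈ A, φ x ∈ B ∨ F (φ x) = 0) →
      ∑ x ∈ A, F (φ x) ≤ m * ∑ y ∈ B, F y := by
  classical
  obtain ⟨Bh, hBh⟩ : ∃ Bh : Finset H, ∀ x, wordLength (T : Set H) x ≤ r → x ∈ Bh :=
    ⟨(ball_finite hT r).toFinset, fun x hx => by rw [Set.Finite.mem_toFinset]; exact hx⟩
  refine ⟨(Bh.card : ℝ) + 1, by linarith [(Nat.cast_nonneg Bh.card : (0 : ℝ) ≤ Bh.card)],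
    fun A B F hF hAB => ?_⟩
  have hfib : ∀ y, ((A.filter (fun x => φ x = y)).card : ℝ) ≤ (Bh.card : ℝ) + 1 := by
    intro y
    have h0 : (A.filter (fun x => φ x = y)).card ≤ Bh.card := by
      rcases (A.filter (fun x => φ x = y)).eq_empty_or_nonempty with h0 | ⟨x₀, hx₀⟩
      · rw [h0]; simp
      · refine Finset.card_le_card_of_injOn (fun x => x₀⁻¹ * x) ?_ ?_
        · intro x hx
          refine hBh _ ?_
          have h1 : φ x₀ = y := (Finset.mem_filter.1 hx₀).2
          have h2 : φ x = y := (Finset.mem_filter.1 (Finset.mem_coe.1 hx)).2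
          have h3 := h.2.1 x₀ x
          rw [h1, h2, inv_mul_cancel, wl_one] at h3
          simpa using h3
        · intro x _ x' _ hxx
          exact mul_left_cancel hxx
    have h1 : ((A.filter (fun x => φ x = y)).card : ℝ) ≤ Bh.card := by exact_mod_cast h0
    linarith
  have h1 : ∑ x ∈ A, F (φ x) = ∑ x ∈ A.filter (fun x => φ x ∈ B), F (φ x) := by
    rw [Finset.sum_filter]
    refine Finset.sum_congr rfl fun x hx => ?_
    split_ifs with hxB
    · rfl
    · exact (hAB x hx).resolve_left hxB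
  have h2 : ∑ x ∈ A.filter (fun x => φ x ∈ B), F (φ x) =
      ∑ y ∈ B, ∑ x ∈ (A.filter (fun x => φ x ∈ B)).filter (fun x => φ x = y), F (φ x) :=
    (Finset.sum_fiberwise_of_maps_to (fun x hx => (Finset.mem_filter.1 hx).2) _).symm
  rw [h1, h2, Finset.mul_sum]
  refine Finset.sum_le_sum fun y _ => ?_
  have h3 : ∑ x ∈ (A.filter (fun x => φ x ∈ B)).filter (fun x => φ x = y), F (φ x) =
      ((A.filter (fun x => φ x ∈ B)).filter (fun x => φ x = y)).card * F y := by
    rw [← nsmul_eq_mul, ← Finset.sum_const]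
    refine Finset.sum_congr rfl fun x hx => ?_
    rw [(Finset.mem_filter.1 hx).2]
  rw [h3]
  refine mul_le_mul_of_nonneg_right ((Nat.cast_le.2 (Finset.card_le_card ?_)).trans (hfib y)) (hF y)
  intro x hx
  have h4 := Finset.mem_filter.1 hx
  exact Finset.mem_filter.2 ⟨(Finset.mem_filter.1 h4.1).1, h4.2⟩

theorem qi_energy {S : Finset G} {T : Finset H} (hS : GenSet S) (hT : GenSet T) {φ : H → G}
    {r : ℕ} (h : NatQI T S φ r) : ∃ C : ℝ, 0 < C ∧ ∀ (ξ : G →₀ ℝ) (η : H →₀ ℝ),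
      (∀ x, η x = ξ (φ x)) → es T η ≤ C * es S ξ := by
  classical
  obtain ⟨m, hm, hsum⟩ := qi_sum hT h
  obtain ⟨B2, hB2⟩ : ∃ B2 : Finset G, ∀ g, g ∈ B2 ↔ wordLength (S : Set G) g ≤ 2 * r :=
    ⟨(ball_finite hS (2 * r)).toFinset, fun g => by rw [Set.Finite.mem_toFinset]; exact Iff.rfl⟩
  refine ⟨T.card * (m * (B2.card * (2 * (r : ℝ)) ^ 2)) + 1, by positivity, fun ξ η hη => ?_⟩
  have hes : 0 ≤ es S ξ := Finset.sum_nonneg fun s _ => dd_nonneg' s ξ
  have hdd : ∀ t ∈ T, dd t η ≤ m * (B2.card * (2 * (r : ℝ)) ^ 2) * es S ξ := by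
    intro t ht
    obtain ⟨F, hF⟩ : ∃ F : G → ℝ, ∀ y, F y = ∑ g ∈ B2, (ξ (y * g) - ξ y) ^ 2 :=
      ⟨_, fun _ => rfl⟩
    obtain ⟨B, hB⟩ : ∃ B : Finset G, B = B2.biUnion fun g => (rt g ξ - ξ).support := ⟨_, rfl⟩
    have h1 : dd t η ≤ ∑ x ∈ (rt t η - η).support, F (φ x) := by
      unfold dd
      rw [sq_sum _ (Finset.Subset.refl _)]
      refine Finset.sum_le_sum fun x _ => ?_
      rw [Finsupp.sub_apply, rt_apply, hη, hη]
      have hg : (φ x)⁻¹ * φ (x * t) ∈ B2 := by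
        rw [hB2]
        have h2 := h.1 x (x * t)
        rw [inv_mul_cancel_left] at h2
        have h4 : wordLength (T : Set H) t ≤ 1 := wl_letter (Or.inl ht)
        calc wordLength (S : Set G) ((φ x)⁻¹ * φ (x * t))
            ≤ r * (wordLength (T : Set H) t + 1) := h2
          _ ≤ r * (1 + 1) := Nat.mul_le_mul_left _ (by omega)
          _ = 2 * r := by ring
      have h5 := Finset.single_le_sum (f := fun g => (ξ (φ x * g) - ξ (φ x)) ^ 2)
        (fun g _ => sq_nonneg _) hg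
      rw [hF]
      simpa only [mul_inv_cancel_left] using h5
    have h2 : ∑ x ∈ (rt t η - η).support, F (φ x) ≤ m * ∑ y ∈ B, F y := by
      refine hsum _ B F (fun y => ?_) fun x _ => ?_
      · rw [hF]
        exact Finset.sum_nonneg fun g _ => sq_nonneg _
      · by_cases hxB : φ x ∈ B
        · exact Or.inl hxB
        · right
          rw [hF]
          refine Finset.sum_eq_zero fun g hg => ?_
          have h3 : φ x ∉ (rt g ξ - ξ).support := fun hx => hxB (by
            rw [hB]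
            exact Finset.mem_biUnion.2 ⟨g, hg, hx⟩)
          rw [Finsupp.notMem_support_iff, Finsupp.sub_apply, rt_apply] at h3
          rw [h3]
          norm_num
    have h3 : ∑ y ∈ B, F y = ∑ g ∈ B2, dd g ξ := by
      simp only [hF]
      rw [Finset.sum_comm]
      refine Finset.sum_congr rfl fun g hg => ?_
      unfold dd
      have hsub : (rt g ξ - ξ).support ⊆ B := by
        rw [hB]
        intro y hy
        exact Finset.mem_biUnion.2 ⟨g, hg, hy⟩
      rw [sq_sum _ hsub]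
      refine Finset.sum_congr rfl fun y _ => ?_
      rw [Finsupp.sub_apply, rt_apply]
    have h4 : ∑ g ∈ B2, dd g ξ ≤ B2.card * ((2 * (r : ℝ)) ^ 2 * es S ξ) := by
      rw [← nsmul_eq_mul]
      refine Finset.sum_le_card_nsmul _ _ _ fun g hg => ?_
      refine (dd_len hS g ξ).trans (mul_le_mul_of_nonneg_right ?_ hes)
      have h5 : (wordLength (S : Set G) g : ℝ) ≤ 2 * (r : ℝ) := by
        exact_mod_cast (hB2 g).1 hg
      exact pow_le_pow_left₀ (Nat.cast_nonneg _) h5 2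
    calc dd t η ≤ m * ∑ y ∈ B, F y := h1.trans h2
      _ ≤ m * (B2.card * ((2 * (r : ℝ)) ^ 2 * es S ξ)) := by
          rw [h3]
          exact mul_le_mul_of_nonneg_left h4 (by linarith)
      _ = m * (B2.card * (2 * (r : ℝ)) ^ 2) * es S ξ := by ring
  have h6 : es T η ≤ T.card * (m * (B2.card * (2 * (r : ℝ)) ^ 2) * es S ξ) := by
    rw [← nsmul_eq_mul]
    exact Finset.sum_le_card_nsmul _ _ _ hdd
  calc es T η ≤ T.card * (m * (B2.card * (2 * (r : ℝ)) ^ 2) * es S ξ) := h6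
    _ ≤ (T.card * (m * (B2.card * (2 * (r : ℝ)) ^ 2)) + 1) * es S ξ := by
        nlinarith [hes]

end Pool.Agent.H34.RQ
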