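import Pool.Agent.H34.RQ.Defs

/-!
U: simple random walk. `S` is nonempty since `G` is infinite (the closure of the empty set is trivial). `unif S g = 1 / card S` on `S`, `0` outside. Sum: `finsum_eq_sum_of_support_subset`. Generating: the submonoid generated by the support `S = S ∪ S⁻¹` is everything
(`Subgroup.closure_toSubmonoid`). `Sym2`: finite support (`summable_of_hasFiniteSupport`, `hasSum_sum_of_ne_finset_zero`; compare `sym2_of_fs` in SM/Fin). `cayley_of`: for `f` harmonic on the Cayley graph, `HasSum (fun h => unif S h * f (g * h)) (f g)`
(a finite sum over `S`: `(sum_{s} f (g s)) / card S`).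
-/

namespace Pool.Agent.H34.RQ

open Pool.Agent.H34.LS Pool.Agent.H34.RP Pool.Agent.H34.SM

universe u

variable {G : Type u} [Group G]

theorem unif_fs [Infinite G] {S : Finset G} (h : GenSet S) : IsFSProb (unif S) := by
  sorry

theorem unif_gen [Infinite G] {S : Finset G} (h : GenSet S) : Generating (unif S) := by
  sorry

theorem unif_symm {S : Finset G} (h : GenSet S) : Symm (unif S) := by
  sorry

theorem unif_sym2 [Infinite G] {S : Finset G} (h : GenSet S) : Sym2 (unif S) := by
  sorry

theorem cayley_of [Infinite G] {S : Finset G} (h : GenSet S) (hL : Liouville (unif S)) :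
    CayleyLiouville S := by
  sorry

end Pool.Agent.H34.RQ
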